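import Pool.Agent.V8H11.JP.Ker

set_option autoImplicit false

/-!
# Averages over functions
-/

namespace Pool.Agent.V8H11.LI

open Finset
open Pool.Agent.Y516.OJ (ind)

/-- the average of a function -/
noncomputable def av {A : Type} [Fintype A] (h : A → ℝ) : ℝ :=
  ∑ a, (1 / (Fintype.card A : ℝ)) * h a

section basic

variable {A B : Type} [Fintype A] [Fintype B]

theorem av_nonneg {h : A → ℝ} (hh : ∀ a, 0 ≤ h a) : 0 ≤ av h :=
  sum_nonneg fun a _ => mul_nonneg (by positivity) (hh a)

theorem av_mono {f g : A → ℝ} (h : ∀ a, f a ≤ g a) : av f ≤ av g :=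
  sum_le_sum fun a _ => mul_le_mul_of_nonneg_left (h a) (by positivity)

theorem av_mul (c : ℝ) (f : A → ℝ) : av (fun a => c * f a) = c * av f := by
  unfold av
  rw [mul_sum]
  exact sum_congr rfl fun a _ => by ring

theorem av_add (f g : A → ℝ) : av (fun a => f a + g a) = av f + av g := by
  unfold av
  rw [← sum_add_distrib]
  exact sum_congr rfl fun a _ => by ring

theorem av_sub (f g : A → ℝ) : av (fun a => f a - g a) = av f - av g := by
  unfold av
  rw [← sum_sub_distrib]
  exact sum_congr rfl fun a _ => by ring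

theorem av_sum {κ : Type} (s : Finset κ) (f : κ → A → ℝ) :
    av (fun a => ∑ i ∈ s, f i a) = ∑ i ∈ s, av (f i) := by
  unfold av
  simp only [mul_sum]
  exact sum_comm

theorem av_const [Nonempty A] (c : ℝ) : av (fun _ : A => c) = c := by
  unfold av
  rw [sum_const, card_univ, nsmul_eq_mul]
  have : (Fintype.card A : ℝ) ≠ 0 := by exact_mod_cast Fintype.card_ne_zero
  field_simp

theorem av_comm (h : A → B → ℝ) : av (fun a => av (h a)) = av fun b => av fun a => h a b := by
  unfold av
  simp only [mul_sum]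
  rw [sum_comm]
  exact sum_congr rfl fun b _ => sum_congr rfl fun a _ => by ring

end basic

section fn

variable {ι : Type} [Fintype ι] [DecidableEq ι] {K : ℕ}

theorem av_update [NeZero K] (j : ι) (F : (ι → Fin K) → ℝ) :
    av F = av fun y => av fun v => F (Function.update y j v) := by
  have h1 : ∑ y : ι → Fin K, ∑ v : Fin K, F (Function.update y j v) = K * ∑ y, F y := by
    rw [← Fintype.sum_prod_type' (fun (y : ι → Fin K) (v : Fin K) => F (Function.update y j v))]
    have h2 : ∑ z : (ι → Fin K) × Fin K, F (Function.update z.1 j z.2) =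
        ∑ z : (ι → Fin K) × Fin K, F z.1 := by
      refine Fintype.sum_bijective (fun z : (ι → Fin K) × Fin K =>
        (Function.update z.1 j z.2, z.1 j)) ?_ _ _ (fun _ => rfl)
      have hinv : Function.Involutive (fun z : (ι → Fin K) × Fin K =>
          (Function.update z.1 j z.2, z.1 j)) := by
        intro z
        simp
      exact hinv.bijective
    rw [h2, Fintype.sum_prod_type]
    simp [mul_sum]
  have hK : (K : ℝ) ≠ 0 := by exact_mod_cast (NeZero.ne K)
  unfold av
  simp only [← mul_sum]
  rw [h1, Fintype.card_fin]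
  field_simp

theorem av_ind_notMem [NeZero K] (B : Finset (Fin K)) :
    av (fun v : Fin K => ind (v ∉ B)) = 1 - B.card / K := by
  have hK : (K : ℝ) ≠ 0 := by exact_mod_cast (NeZero.ne K)
  have h1 : av (fun v : Fin K => ind (v ∉ B)) = av (fun v : Fin K => 1 - ind (v ∈ B)) := by
    congr 1
    funext v
    by_cases h : v ∈ B
    · rw [Pool.Agent.Y85.OJ.ind_true h, Pool.Agent.Y85.OJ.ind_false (by simpa using h)]
      ring
    · rw [Pool.Agent.Y85.OJ.ind_false h, Pool.Agent.Y85.OJ.ind_true h]
      ring
  rw [h1, av_sub]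
  have : Nonempty (Fin K) := ⟨⟨0, Nat.pos_of_ne_zero (NeZero.ne K)⟩⟩
  rw [av_const]
  congr 1
  unfold av
  rw [← mul_sum]
  have h2 : ∑ v : Fin K, ind (v ∈ B) = B.card := by
    have h3 : ∀ v : Fin K, ind (v ∈ B) = if v ∈ B then 1 else 0 := by
      intro v
      by_cases h : v ∈ B
      · rw [Pool.Agent.Y85.OJ.ind_true h, if_pos h]
      · rw [Pool.Agent.Y85.OJ.ind_false h, if_neg h]
    simp only [h3]
    rw [sum_ite_mem]
    simp
  rw [h2, Fintype.card_fin]
  ring

/-- the probability of avoiding given sets -/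
theorem av_avoid [NeZero K] (W : ι → Finset (Fin K)) :
    av (fun x : ι → Fin K => ind (∀ i, x i ∉ W i)) ≤
      Real.exp (-(1 / (K : ℝ) * ∑ i, ((W i).card : ℝ))) := by
  classical
  have hK : (0 : ℝ) < K := by exact_mod_cast Nat.pos_of_ne_zero (NeZero.ne K)
  have h1 : ∑ x : ι → Fin K, ind (∀ i, x i ∉ W i) = ∏ i, ((K : ℝ) - (W i).card) := by
    have h2 : ∑ x : ι → Fin K, ind (∀ i, x i ∉ W i) =
        ((Fintype.piFinset fun i => (W i)ᶜ).card : ℝ) := by
      rw [card_eq_sum_ones]
      push_cast
      rw [← sum_filter_add_sum_filter_not (univ : Finset (ι → Fin K)) (fun x => ∀ i, x i ∉ W i)]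
      have h3 : ∑ x ∈ univ.filter (fun x : ι → Fin K => ¬ ∀ i, x i ∉ W i),
          ind (∀ i, x i ∉ W i) = 0 := by
        refine sum_eq_zero fun x hx => ?_
        exact Pool.Agent.Y85.OJ.ind_false (mem_filter.1 hx).2
      rw [h3, add_zero]
      have h4 : univ.filter (fun x : ι → Fin K => ∀ i, x i ∉ W i) =
          Fintype.piFinset fun i => (W i)ᶜ := by
        ext x
        simp
      rw [h4]
      refine sum_congr rfl fun x hx => ?_
      refine Pool.Agent.Y85.OJ.ind_true ?_
      intro i
      have := Fintype.mem_piFinset.1 hx i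
      simpa using this
    rw [h2, Fintype.card_piFinset]
    push_cast
    refine prod_congr rfl fun i _ => ?_
    rw [card_compl, Fintype.card_fin, Nat.cast_sub]
    exact (card_le_univ _).trans (by rw [Fintype.card_fin])
  unfold av
  rw [← mul_sum, h1, Fintype.card_fun, Fintype.card_fin]
  have h5 : (1 / ((K ^ Fintype.card ι : ℕ) : ℝ)) * ∏ i, ((K : ℝ) - (W i).card) =
      ∏ i : ι, (1 - (W i).card / (K : ℝ)) := by
    have h6 : ∀ i : ι, ((K : ℝ) - (W i).card) = K * (1 - (W i).card / (K : ℝ)) := by
      intro i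
      field_simp
    simp only [h6]
    rw [prod_mul_distrib, prod_const, card_univ]
    push_cast
    field_simp
  rw [h5, mul_sum, ← sum_neg_distrib, Real.exp_sum]
  refine prod_le_prod (fun i _ => ?_) fun i _ => ?_
  · have h7 : ((W i).card : ℝ) ≤ K := by
      have : (W i).card ≤ K := (card_le_univ _).trans (by rw [Fintype.card_fin])
      exact_mod_cast this
    have h8 : ((W i).card : ℝ) / K ≤ 1 := by rwa [div_le_one hK]
    linarith
  · have := Real.add_one_le_exp (-(1 / (K : ℝ) * (W i).card))
    have h9 : (W i).card / (K : ℝ) = 1 / (K : ℝ) * (W i).card := by ring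
    rw [h9]
    linarith

end fn

end Pool.Agent.V8H11.LI
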