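import Mathlib

set_option autoImplicit false

/-!
# Query algorithms with free bits of the two halves and few joint probes
-/

namespace Pool.Agent.V8H11.LI

open Finset

/-- A query algorithm for an input with two halves from `A` and `B`. It can look at bits of the two
halves, which are arbitrary functions of a half, and it can probe joint cells, which contain words
of `w` bits. Everything which it does next depends on all what it has seen. -/
inductive Alg (A B R : Type) (s w : ℕ) : Type
  /-- the answer is `r` -/
  | out (r : R) : Alg A B R s w
  /-- look at the bit `f` of the first half, and go on with `a` or `b` -/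
  | left (f : A → Bool) (a b : Alg A B R s w) : Alg A B R s w
  /-- look at the bit `g` of the second half, and go on with `a` or `b` -/
  | right (g : B → Bool) (a b : Alg A B R s w) : Alg A B R s w
  /-- probe the joint cell `c`, and go on with `next v` if its content is `v` -/
  | probe (c : Fin s) (next : Fin (2 ^ w) → Alg A B R s w) : Alg A B R s w

namespace Alg

variable {A B R : Type} {s w : ℕ}

/-- the largest number of bits which are looked at -/
def bits : Alg A B R s w → ℕ
  | out _ => 0
  | left _ a b => max a.bits b.bits + 1
  | right _ a b => max a.bits b.bits + 1
  | probe _ next => univ.sup fun v => (next v).bits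

/-- the largest number of joint cells which are probed -/
def probes : Alg A B R s w → ℕ
  | out _ => 0
  | left _ a b => max a.probes b.probes
  | right _ a b => max a.probes b.probes
  | probe _ next => (univ.sup fun v => (next v).probes) + 1

/-- the answer on the input `(x, y)`, if the contents of the joint cells are `J` -/
def eval (x : A) (y : B) (J : Fin s → Fin (2 ^ w)) : Alg A B R s w → R
  | out r => r
  | left f a b => if f x then a.eval x y J else b.eval x y J
  | right g a b => if g y then a.eval x y J else b.eval x y J
  | probe c next => (next (J c)).eval x y J

end Alg

/-- A (deterministic) data structure for families of `2 * k` subsets of a universe with `u`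
elements, which are given as two halves of `k` sets, with `s` joint cells of `w` bits. -/
structure ListDS (k u w s : ℕ) where
  /-- the contents of the joint cells, which are arbitrary functions of the whole family -/
  cell : (Fin k → Finset (Fin u)) → (Fin k → Finset (Fin u)) → Fin s → Fin (2 ^ w)
  /-- the algorithm for the query `(i, j)`, which lists a set of elements -/
  query : Fin k → Fin k →
    Alg (Fin k → Finset (Fin u)) (Fin k → Finset (Fin u)) (Finset (Fin u)) s w

open Classical in
/-- The random data structure `D` (which is `D ω` with probability `p ω`) lists small
intersections with at most `b` bits and at most `t` joint probes: for every family with halves `F`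
and `G` of total size at most `N` and every query `(i, j)` such that `F i ∩ G j` has at most `h`
elements, the probability that the answer is `F i ∩ G j` is at least `1 / 2`. -/
def SolvesList {k u w s : ℕ} (b t h N : ℕ) {Ω : Type} [Fintype Ω] (p : Ω → ℝ)
    (D : Ω → ListDS k u w s) : Prop :=
  (∀ ω, 0 ≤ p ω) ∧ ∑ ω, p ω = 1 ∧
    (∀ ω i j, ((D ω).query i j).bits ≤ b ∧ ((D ω).query i j).probes ≤ t) ∧
    ∀ F G : Fin k → Finset (Fin u), ∑ i, (F i).card + ∑ j, (G j).card ≤ N → ∀ i j : Fin k,
      (F i ∩ G j).card ≤ h →
      1 / 2 ≤ ∑ ω ∈ univ.filter (fun ω =>
        ((D ω).query i j).eval F G ((D ω).cell F G) = F i ∩ G j), p ω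

end Pool.Agent.V8H11.LI
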