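import Pool.Agent.V8H11.LI.Tree

set_option autoImplicit false

/-!
# Many queries are rarely answered correctly with little information
-/

namespace Pool.Agent.V8H11.LI

open Finset
open Pool.Agent.Y516.OJ (ind)
open Pool.Agent.Y85.OJ (ind_true ind_false ind_nonneg)

namespace Alg

variable {A B A' B' R : Type} {s w : ℕ}

/-- the algorithm for other descriptions of the halves -/
def comap (φ : A' → A) (ψ : B' → B) : Alg A B R s w → Alg A' B' R s w
  | out r => out r
  | left f a b => left (fun x => f (φ x)) (a.comap φ ψ) (b.comap φ ψ)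
  | right g a b => right (fun y => g (ψ y)) (a.comap φ ψ) (b.comap φ ψ)
  | probe c next => probe c fun v => (next v).comap φ ψ

theorem comap_bits (φ : A' → A) (ψ : B' → B) (π : Alg A B R s w) :
    (π.comap φ ψ).bits = π.bits := by
  induction π with
  | out r => rfl
  | left f a b iha ihb =>
    show max (a.comap φ ψ).bits (b.comap φ ψ).bits + 1 = _
    rw [iha, ihb]
    rfl
  | right f a b iha ihb =>
    show max (a.comap φ ψ).bits (b.comap φ ψ).bits + 1 = _
    rw [iha, ihb]
    rfl
  | probe c next ih =>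
    show univ.sup (fun v => ((next v).comap φ ψ).bits) = _
    simp only [ih]
    rfl

theorem comap_run (φ : A' → A) (ψ : B' → B) (π : Alg A B R s w) (x : A') (y : B')
    (T : Fin s → Option (Fin (2 ^ w))) :
    (π.comap φ ψ).run x y T = π.run (φ x) (ψ y) T := by
  induction π with
  | out r => rfl
  | left f a b iha ihb =>
    rw [run_left, ← iha, ← ihb]
    rfl
  | right f a b iha ihb =>
    rw [run_right, ← iha, ← ihb]
    rfl
  | probe c next ih =>
    rw [run_probe]
    show (T c).elim none (fun v => ((next v).comap φ ψ).run x y T) = _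
    simp only [ih]

end Alg

variable {k M K : ℕ}

/-- the family with the elements `(e, x (i, e))` in the set `i` -/
def fam (x : Fin k × Fin M → Fin K) (i : Fin k) : Finset (Fin (M * K)) :=
  univ.image fun e : Fin M => finProdFinEquiv (e, x (i, e))

theorem fam_card (x : Fin k × Fin M → Fin K) (i : Fin k) : (fam x i).card ≤ M := by
  unfold fam
  exact card_image_le.trans (by rw [card_univ, Fintype.card_fin])

theorem mem_fam {x : Fin k × Fin M → Fin K} {i : Fin k} {e : Fin M} {v : Fin K} :
    finProdFinEquiv (e, v) ∈ fam x i ↔ x (i, e) = v := by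
  unfold fam
  rw [mem_image]
  constructor
  · rintro ⟨e', _, h⟩
    have h1 := finProdFinEquiv.injective h
    rw [Prod.mk.injEq] at h1
    obtain ⟨rfl, h2⟩ := h1
    exact h2
  · rintro rfl
    exact ⟨e, mem_univ _, rfl⟩

/-- the pairs of coordinates which differ if the answers are `Q` -/
def dif (D : Finset (Fin k × Fin k)) (Q : Fin k × Fin k → Finset (Fin (M * K))) :
    Finset ((Fin k × Fin M) × (Fin k × Fin M)) :=
  univ.filter fun z => (z.1.1, z.2.1) ∈ D ∧ z.1.2 = z.2.2 ∧
    ¬ ∃ v : Fin K, finProdFinEquiv (z.1.2, v) ∈ Q (z.1.1, z.2.1)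

theorem dif_row (D : Finset (Fin k × Fin k)) (Q : Fin k × Fin k → Finset (Fin (M * K)))
    (i : Fin k × Fin M) : ((dif D Q).filter fun z => z.1 = i).card ≤
      (D.filter fun d => d.1 = i.1).card := by
  rw [← card_image_of_injOn (s := (dif D Q).filter fun z => z.1 = i)
    (f := fun z : (Fin k × Fin M) × (Fin k × Fin M) => (z.1.1, z.2.1))]
  · refine card_le_card fun d hd => ?_
    obtain ⟨z, hz, rfl⟩ := mem_image.1 hd
    rw [mem_filter, dif, mem_filter] at hz
    exact mem_filter.2 ⟨hz.1.2.1, by rw [hz.2]⟩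
  · intro z hz z' hz' h
    rw [mem_coe, mem_filter, dif, mem_filter] at hz hz'
    simp only [Prod.mk.injEq] at h
    refine Prod.ext (hz.2.trans hz'.2.symm) (Prod.ext h.2 ?_)
    rw [← hz.1.2.2.1, ← hz'.1.2.2.1, hz.2, hz'.2]

theorem dif_col (D : Finset (Fin k × Fin k)) (Q : Fin k × Fin k → Finset (Fin (M * K)))
    (j : Fin k × Fin M) : ((dif D Q).filter fun z => z.2 = j).card ≤
      (D.filter fun d => d.2 = j.1).card := by
  rw [← card_image_of_injOn (s := (dif D Q).filter fun z => z.2 = j)
    (f := fun z : (Fin k × Fin M) × (Fin k × Fin M) => (z.1.1, z.2.1))]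
  · refine card_le_card fun d hd => ?_
    obtain ⟨z, hz, rfl⟩ := mem_image.1 hd
    rw [mem_filter, dif, mem_filter] at hz
    exact mem_filter.2 ⟨hz.1.2.1, by rw [hz.2]⟩
  · intro z hz z' hz' h
    rw [mem_coe, mem_filter, dif, mem_filter] at hz hz'
    simp only [Prod.mk.injEq] at h
    refine Prod.ext (Prod.ext h.1 ?_) (hz.2.trans hz'.2.symm)
    rw [hz.1.2.2.1, hz'.1.2.2.1, hz.2, hz'.2]

theorem dif_card (D : Finset (Fin k × Fin k)) (Q : Fin k × Fin k → Finset (Fin (M * K)))
    {h : ℕ} (hh : 2 * h ≤ M) (hQ : ∀ d ∈ D, (Q d).card ≤ h) : D.card * M ≤ 2 * (dif D Q).card := by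
  classical
  have h1 : (dif D Q).card = ∑ d ∈ D, ((dif D Q).filter fun z => (z.1.1, z.2.1) = d).card :=
    card_eq_sum_card_fiberwise fun z hz => by
      rw [mem_coe, dif, mem_filter] at hz
      exact mem_coe.2 hz.2.1
  have h2 : ∀ d ∈ D, M ≤ 2 * ((dif D Q).filter fun z => (z.1.1, z.2.1) = d).card := by
    intro d hd
    have h3 : (univ.filter fun e : Fin M => ¬ ∃ v : Fin K, finProdFinEquiv (e, v) ∈ Q d).card ≤
        ((dif D Q).filter fun z => (z.1.1, z.2.1) = d).card := by
      rw [← card_image_of_injective (univ.filter fun e : Fin M =>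
        ¬ ∃ v : Fin K, finProdFinEquiv (e, v) ∈ Q d) (f := fun e => ((d.1, e), (d.2, e)))
        (fun a b hab => by simpa using hab)]
      refine card_le_card fun z hz => ?_
      obtain ⟨e, he, rfl⟩ := mem_image.1 hz
      rw [mem_filter, dif, mem_filter]
      exact ⟨⟨mem_univ _, hd, rfl, (mem_filter.1 he).2⟩, rfl⟩
    have h4 : (univ.filter fun e : Fin M => ∃ v : Fin K, finProdFinEquiv (e, v) ∈ Q d).card ≤
        (Q d).card := by
      refine le_trans (card_le_card (t := (Q d).image fun c => (finProdFinEquiv.symm c).1) ?_)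
        card_image_le
      intro e he
      obtain ⟨v, hv⟩ := (mem_filter.1 he).2
      refine mem_image.2 ⟨_, hv, ?_⟩
      rw [Equiv.symm_apply_apply]
    have h5 := card_filter_add_card_filter_not (s := (univ : Finset (Fin M)))
      (fun e : Fin M => ∃ v : Fin K, finProdFinEquiv (e, v) ∈ Q d)
    rw [card_univ, Fintype.card_fin] at h5
    have h6 := hQ d hd
    omega
  rw [h1, mul_sum]
  calc D.card * M = ∑ _d ∈ D, M := by rw [sum_const, smul_eq_mul]
    _ ≤ _ := sum_le_sum h2

variable {s w : ℕ}

/-- the queries of `D` are answered correctly with the table `T` -/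
def AllRight (query : Fin k × Fin k → Alg (Fin k → Finset (Fin (M * K)))
    (Fin k → Finset (Fin (M * K))) (Finset (Fin (M * K))) s w) (h : ℕ)
    (T : Fin s → Option (Fin (2 ^ w))) (D : Finset (Fin k × Fin k))
    (x y : Fin k × Fin M → Fin K) : Prop :=
  ∀ d ∈ D, (query d).run (fam x) (fam y) T = some (fam x d.1 ∩ fam y d.2) ∧
    (fam x d.1 ∩ fam y d.2).card ≤ h

theorem direct [NeZero K] {query : Fin k × Fin k → Alg (Fin k → Finset (Fin (M * K)))
    (Fin k → Finset (Fin (M * K))) (Finset (Fin (M * K))) s w} {h b q L : ℕ} {p : ℝ}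
    (hb : ∀ d, (query d).bits ≤ b) (hh : 2 * h ≤ M) (hq : 1 ≤ q) (hpq : p.HolderConjugate q)
    (hK : 2 * (q * L) ≤ K) (T : Fin s → Option (Fin (2 ^ w))) {D : Finset (Fin k × Fin k)}
    (hD1 : ∀ i, (D.filter fun d => d.1 = i).card ≤ L)
    (hD2 : ∀ j, (D.filter fun d => d.2 = j).card ≤ L) :
    av (fun x : Fin k × Fin M → Fin K => av fun y : Fin k × Fin M → Fin K =>
      ind (AllRight query h T D x y)) ≤
      2 ^ (((b * D.card : ℕ) : ℝ) / q) * Real.exp (-((D.card : ℝ) * M / (8 * K))) := by
  have hK0 : (0 : ℝ) < K := by exact_mod_cast Nat.pos_of_ne_zero (NeZero.ne K)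
  have hp := hpq.pos
  have hne : Nonempty (Fin K) := ⟨⟨0, Nat.pos_of_ne_zero (NeZero.ne K)⟩⟩
  have h1 := trees_bdd (A := Fin k × Fin M → Fin K) (B := Fin k × Fin M → Fin K) hpq
    (c := Real.exp (-((D.card : ℝ) * M / (8 * K)))) (Real.exp_pos _).le (b := b) T
    (fun d => (query d).comap fam fam) (fun d => by rw [Alg.comap_bits]; exact hb d)
    (fun d r x y => r = some (fam x d.1 ∩ fam y d.2) ∧ (fam x d.1 ∩ fam y d.2).card ≤ h) D
    (by
      intro S f g hf hg
      by_cases hS : ∀ d ∈ D, S d ≠ none ∧ ((S d).getD ∅).card ≤ h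
      · have hcard := dif_card D (fun d => (S d).getD ∅) hh fun d hd => (hS d hd).2
        have hk := ker (S := dif D fun d => (S d).getD ∅) (Δ := L) (q := q) (p := p)
          (fun i => (dif_row D _ i).trans (hD1 _)) (fun j => (dif_col D _ j).trans (hD2 _)) hq hpq
          hK hf hg
        have hle : Real.exp (-((dif D fun d => (S d).getD ∅).card / (4 * (K : ℝ)))) ≤
            Real.exp (-((D.card : ℝ) * M / (8 * K))) := by
          apply Real.exp_le_exp.2
          have h2 : (D.card : ℝ) * M ≤ 2 * (dif D fun d => (S d).getD ∅).card := by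
            exact_mod_cast hcard
          have h3 : (D.card : ℝ) * M / (8 * K) ≤ (dif D fun d => (S d).getD ∅).card / (4 * (K : ℝ)) := by
            rw [div_le_div_iff₀ (by positivity) (by positivity)]
            nlinarith
          linarith
        refine le_trans (av_mono fun x => av_mono fun y => ?_) (hk.trans
          (mul_le_mul_of_nonneg_right hle (mul_nonneg (nrm_nonneg p hf) (nrm_nonneg p hg))))
        refine mul_le_mul_of_nonneg_left ?_ (mul_nonneg (hf x) (hg y))
        by_cases hev : ∀ d ∈ D, S d = some (fam x d.1 ∩ fam y d.2) ∧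
            (fam x d.1 ∩ fam y d.2).card ≤ h
        · rw [ind_true hev, ind_true]
          intro z hz hxy
          rw [dif, mem_filter] at hz
          obtain ⟨_, hz1, hz2, hz3⟩ := hz
          apply hz3
          refine ⟨x z.1, ?_⟩
          rw [(hev _ hz1).1, Option.getD_some, mem_inter]
          refine ⟨mem_fam.2 rfl, ?_⟩
          rw [hz2, mem_fam]
          exact hxy.symm
        · rw [ind_false hev]
          exact ind_nonneg _
      · have h0 : ∀ x y : Fin k × Fin M → Fin K, f x * g y * ind (∀ d ∈ D,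
            S d = some (fam x d.1 ∩ fam y d.2) ∧ (fam x d.1 ∩ fam y d.2).card ≤ h) = 0 := by
          intro x y
          rw [ind_false, mul_zero]
          intro hev
          apply hS
          intro d hd
          obtain ⟨h2, h3⟩ := hev d hd
          rw [h2]
          exact ⟨by simp, by simpa using h3⟩
        simp only [h0]
        rw [av_const, av_const]
        exact mul_nonneg (Real.exp_pos _).le (mul_nonneg (nrm_nonneg p hf) (nrm_nonneg p hg)))
  have h2 := h1 (fun _ => 1) (fun _ => 1) (fun _ => zero_le_one) (fun _ => zero_le_one)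
  have h3 : nrm p (fun _ : Fin k × Fin M → Fin K => (1 : ℝ)) = 1 := by
    unfold nrm
    simp only [Real.one_rpow]
    rw [av_const, Real.one_rpow]
  rw [h3, mul_one, mul_one] at h2
  refine le_trans (le_of_eq ?_) h2
  congr 1
  funext x
  congr 1
  funext y
  simp only [one_mul]
  refine ind_congr ?_
  unfold AllRight
  simp only [Alg.comap_run]

end Pool.Agent.V8H11.LI
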