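import Pool.Agent.V8H11.LI.Main

set_option autoImplicit false

/-!
# Listing small intersections: the main theorem
-/

namespace Pool.Agent.V8H11.LI

open Finset
open Pool.Agent.Y516.OJ (ind)
open Pool.Agent.Y85.OJ (ind_true ind_false ind_nonneg)
open Pool.Agent.V8H11.JP (tauP)

section

variable {k M K : ℕ}

theorem av_ind_eq {ι : Type} [Fintype ι] [DecidableEq ι] [NeZero K] (j : ι) (v : Fin K) :
    av (fun y : ι → Fin K => ind (v = y j)) = 1 / K := by
  have hne : Nonempty (Fin K) := ⟨⟨0, Nat.pos_of_ne_zero (NeZero.ne K)⟩⟩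
  rw [av_update j]
  simp only [Function.update_self]
  rw [av_const]
  unfold av
  rw [← mul_sum, sum_eq_single v (fun v' _ h => ind_false (fun h' => h h'.symm))
    (fun h => absurd (mem_univ v) h), ind_true rfl, mul_one, Fintype.card_fin]

theorem inter_card_le (x y : Fin k × Fin M → Fin K) (i j : Fin k) :
    ((fam x i ∩ fam y j).card : ℝ) ≤ ∑ e : Fin M, ind (x (i, e) = y (j, e)) := by
  classical
  have h1 : fam x i ∩ fam y j ⊆ (univ.filter fun e : Fin M => x (i, e) = y (j, e)).image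
      fun e => finProdFinEquiv (e, x (i, e)) := by
    intro c hc
    rw [mem_inter] at hc
    obtain ⟨⟨e, v⟩, rfl⟩ := finProdFinEquiv.surjective c
    have h2 := mem_fam.1 hc.1
    have h3 := mem_fam.1 hc.2
    refine mem_image.2 ⟨e, mem_filter.2 ⟨mem_univ _, h2.trans h3.symm⟩, ?_⟩
    rw [h2]
  have h2 := (card_le_card h1).trans card_image_le
  have h3 : ((univ.filter fun e : Fin M => x (i, e) = y (j, e)).card : ℝ) ≤
      ∑ e : Fin M, ind (x (i, e) = y (j, e)) := by
    rw [card_eq_sum_ones]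
    push_cast
    calc _ = ∑ e ∈ univ.filter (fun e : Fin M => x (i, e) = y (j, e)),
          ind (x (i, e) = y (j, e)) :=
          sum_congr rfl fun e he => (ind_true (mem_filter.1 he).2).symm
      _ ≤ _ := sum_le_univ_sum_of_nonneg fun e => ind_nonneg _
  have h4 : ((fam x i ∩ fam y j).card : ℝ) ≤
      ((univ.filter fun e : Fin M => x (i, e) = y (j, e)).card : ℝ) := by exact_mod_cast h2
  exact h4.trans h3

theorem small_inter [NeZero K] {h : ℕ} (hh0 : 0 < h) (hh : 4 * M ≤ h * K) (i j : Fin k) :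
    3 / 4 ≤ av (fun x : Fin k × Fin M → Fin K => av fun y : Fin k × Fin M → Fin K =>
      ind ((fam x i ∩ fam y j).card ≤ h)) := by
  have hK : (0 : ℝ) < K := by exact_mod_cast Nat.pos_of_ne_zero (NeZero.ne K)
  have hne : Nonempty (Fin K) := ⟨⟨0, Nat.pos_of_ne_zero (NeZero.ne K)⟩⟩
  have hh0R : (0 : ℝ) < h := by exact_mod_cast hh0
  have h1 : ∀ x y : Fin k × Fin M → Fin K, 1 - 1 / (h : ℝ) * ∑ e : Fin M,
      ind (x (i, e) = y (j, e)) ≤ ind ((fam x i ∩ fam y j).card ≤ h) := by
    intro x y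
    have h2 := inter_card_le x y i j
    by_cases h3 : (fam x i ∩ fam y j).card ≤ h
    · rw [ind_true h3]
      have h4 : 0 ≤ 1 / (h : ℝ) * ∑ e : Fin M, ind (x (i, e) = y (j, e)) :=
        mul_nonneg (by positivity) (sum_nonneg fun e _ => ind_nonneg _)
      linarith
    · rw [ind_false h3]
      push Not at h3
      have h4 : (h : ℝ) ≤ (fam x i ∩ fam y j).card := by exact_mod_cast h3.le
      have h5 : (1 : ℝ) ≤ 1 / (h : ℝ) * ∑ e : Fin M, ind (x (i, e) = y (j, e)) := by
        rw [one_div, ← div_eq_inv_mul, le_div_iff₀ hh0R]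
        linarith
      linarith
  refine le_trans ?_ (av_mono fun x => av_mono fun y => h1 x y)
  have h6 : (av fun x : Fin k × Fin M → Fin K => av fun y : Fin k × Fin M → Fin K =>
      1 - 1 / (h : ℝ) * ∑ e : Fin M, ind (x (i, e) = y (j, e))) =
      1 - 1 / (h : ℝ) * (M * (1 / K)) := by
    simp only [av_sub, av_mul, av_sum, av_const]
    congr 2
    simp only [av_ind_eq]
    simp only [av_const]
    rw [sum_const, card_univ, Fintype.card_fin, nsmul_eq_mul]
  rw [h6]
  have h7 : (4 : ℝ) * M ≤ h * K := by exact_mod_cast hh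
  have h8 : 1 / (h : ℝ) * (M * (1 / K)) ≤ 1 / 4 := by
    rw [one_div, one_div, ← mul_assoc, ← div_eq_inv_mul, ← div_eq_mul_inv, div_div,
      div_le_iff₀ (by positivity)]
    linarith
  linarith

end

theorem sum_fam {k M K N : ℕ} (hN : k * (2 * M) ≤ N) (x y : Fin k × Fin M → Fin K) :
    ∑ i, (fam x i).card + ∑ j, (fam y j).card ≤ N := by
  have h1 : ∀ z : Fin k × Fin M → Fin K, ∑ i, (fam z i).card ≤ k * M := by
    intro z
    calc ∑ i, (fam z i).card ≤ ∑ _i : Fin k, M := sum_le_sum fun i _ => fam_card z i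
      _ = k * M := by simp
  have h2 := h1 x
  have h3 := h1 y
  have h4 : k * (2 * M) = k * M + k * M := by ring
  omega

/-- There is no data structure with little space. -/
theorem no_small (t w b g l T h k s L q ρ n m M K N : ℕ) (ht : 1 ≤ t) (hk : 1 ≤ k)
    (hkl : k ≤ 2 ^ l) (hg : 64 * g ≤ T) (hLk : L ≤ k) (hs1 : 1 ≤ s)
    (hs : s ^ t * L ≤ (4 * tauP t l) ^ t * k ^ (t + 1)) (hT : 32 * l + 128 ≤ T)
    (hρ : 2 * l + w + tauP t l + 2 ≤ T * ρ)
    (hL : L = 49152 * (8 ^ t * 8 ^ t) * t * tauP t l * ρ)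
    (hq2 : 2 ≤ q) (hq : 64 * b ≤ T * q) (hK : K = 2 * (q * L)) (hM : M = K * T)
    (hn : n = 192 * 8 ^ t * k * tauP t l) (hm : m = 64 * ρ * (n * t))
    (hh : h = 4 * T) (hN : k * (2 * M) ≤ N)
    {Ω : Type} [Fintype Ω] (p : Ω → ℝ) (hp : ∀ ω, 0 ≤ p ω) (hp1 : ∑ ω, p ω = 1)
    (cell : Ω → (Fin k → Finset (Fin (M * K))) → (Fin k → Finset (Fin (M * K))) →
      Fin s → Fin (2 ^ w))
    (query : Ω → Fin k × Fin k → (Fin g → Bool) → Alg (Fin k → Finset (Fin (M * K)))
      (Fin k → Finset (Fin (M * K))) (Finset (Fin (M * K))) s w)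
    (hd : ∀ ω d v, (query ω d v).bits ≤ b ∧ (query ω d v).probes ≤ t)
    (gam : Ω → (Fin k → Finset (Fin (M * K))) → (Fin k → Finset (Fin (M * K))) →
      Fin k × Fin k → Fin g → Bool)
    (hgood : ∀ F G : Fin k → Finset (Fin (M * K)), ∑ i, (F i).card + ∑ j, (G j).card ≤ N →
      ∀ d : Fin k × Fin k, (F d.1 ∩ G d.2).card ≤ h →
      1 / 2 ≤ ∑ ω, if (query ω d (gam ω F G d)).eval F G (cell ω F G) = F d.1 ∩ G d.2
        then p ω else 0) : False := by
  classical
  have hkR : (1 : ℝ) ≤ k := by exact_mod_cast hk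
  have hρ1 : 1 ≤ ρ := by
    rcases Nat.eq_zero_or_pos ρ with h0 | h0
    · rw [h0, mul_zero] at hρ
      omega
    · exact h0
  have hK8 : 8 ≤ K := by
    have h1 : 49152 ≤ L := by
      rw [hL]
      have h8 : 1 ≤ 8 ^ t := Nat.one_le_pow _ _ (by norm_num)
      calc 49152 = 49152 * 1 * 1 * 1 * 1 := by norm_num
        _ ≤ _ := by
          gcongr
          · exact Nat.mul_pos h8 h8
          · unfold tauP; omega
    have h2 : 1 * 49152 ≤ q * L := Nat.mul_le_mul (by omega) h1
    omega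
  have : NeZero K := ⟨by omega⟩
  have hne : Nonempty (Fin K) := ⟨⟨0, by omega⟩⟩
  have h4M : 4 * M ≤ h * K := by
    rw [hM, hh]
    refine le_of_eq ?_
    ring
  have h2h : 2 * h ≤ M := by
    rw [hM, hh]
    calc 2 * (4 * T) = 8 * T := by ring
      _ ≤ K * T := Nat.mul_le_mul_right _ hK8
  -- one deterministic data structure
  have hup : ∀ ω, av (fun x : Fin k × Fin M → Fin K => av fun y : Fin k × Fin M → Fin K =>
      ((good (cell ω) (fun d => query ω d (gam ω (fam x) (fam y) d)) h x y).card : ℝ)) ≤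
      9 / 32 * (k : ℝ) ^ 2 := by
    intro ω
    have hmb := main_bound t w b g l T h k s L q ρ n m M K ht hk hkl hg hLk hs hT hρ hL hq2 hq hK
      hM hn hm h2h ⟨0, by omega⟩ (cell ω) (query ω) (fun d v => (hd ω d v).1)
      (fun d v => (hd ω d v).2) (fun x y => gam ω (fam x) (fam y))
    have h1 : ∀ x y : Fin k × Fin M → Fin K,
        ((good (cell ω) (fun d => query ω d (gam ω (fam x) (fam y) d)) h x y).card : ℝ) ≤ (k : ℝ) ^ 2 / 4 +
        (k : ℝ) ^ 2 * ind ((k : ℝ) ^ 2 / 4 ≤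
          (good (cell ω) (fun d => query ω d (gam ω (fam x) (fam y) d)) h x y).card) := by
      intro x y
      have h2 : ((good (cell ω) (fun d => query ω d (gam ω (fam x) (fam y) d)) h x y).card : ℝ) ≤
          (k : ℝ) ^ 2 := by
        have h3 : (good (cell ω) (fun d => query ω d (gam ω (fam x) (fam y) d)) h x y).card ≤
            k * k := by
          refine (card_le_univ _).trans ?_
          rw [Fintype.card_prod, Fintype.card_fin]
        have h4 : ((good (cell ω) (fun d => query ω d (gam ω (fam x) (fam y) d)) h x y).card : ℝ) ≤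
            k * k := by
          exact_mod_cast h3
        linarith
      by_cases h3 : (k : ℝ) ^ 2 / 4 ≤
          (good (cell ω) (fun d => query ω d (gam ω (fam x) (fam y) d)) h x y).card
      · rw [ind_true h3]
        nlinarith
      · rw [ind_false h3]
        push Not at h3
        linarith
    refine (av_mono fun x => av_mono fun y => h1 x y).trans ?_
    simp only [av_add, av_const, av_mul]
    have hk2 : 0 ≤ (k : ℝ) ^ 2 := by positivity
    have h5 := mul_le_mul_of_nonneg_left hmb hk2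
    linarith
  -- the random data structure
  have hlow : 3 / 8 * (k : ℝ) ^ 2 ≤ ∑ ω, p ω *
      av (fun x : Fin k × Fin M → Fin K => av fun y : Fin k × Fin M → Fin K =>
      ((good (cell ω) (fun d => query ω d (gam ω (fam x) (fam y) d)) h x y).card : ℝ)) := by
    have h1 : ∑ ω, p ω *
        av (fun x : Fin k × Fin M → Fin K => av fun y : Fin k × Fin M → Fin K =>
        ((good (cell ω) (fun d => query ω d (gam ω (fam x) (fam y) d)) h x y).card : ℝ)) =
        av (fun x : Fin k × Fin M → Fin K => av fun y : Fin k × Fin M → Fin K =>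
          ∑ ω, p ω * ((good (cell ω) (fun d => query ω d (gam ω (fam x) (fam y) d)) h x y).card : ℝ)) := by
      simp only [av_sum, av_mul]
    rw [h1]
    have h2 : ∀ x y : Fin k × Fin M → Fin K, ∑ d : Fin k × Fin k,
        1 / 2 * ind ((fam x d.1 ∩ fam y d.2).card ≤ h) ≤
        ∑ ω, p ω * ((good (cell ω) (fun d => query ω d (gam ω (fam x) (fam y) d)) h x y).card : ℝ) := by
      intro x y
      have h3 : ∀ ω, ((good (cell ω) (fun d => query ω d (gam ω (fam x) (fam y) d)) h x y).card : ℝ) =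
          ∑ d : Fin k × Fin k, if ((query ω d (gam ω (fam x) (fam y) d)).eval (fam x) (fam y)
            (cell ω (fam x) (fam y)) = fam x d.1 ∩ fam y d.2 ∧
            (fam x d.1 ∩ fam y d.2).card ≤ h) then (1 : ℝ) else 0 := by
        intro ω
        rw [sum_boole]
        unfold good
        rfl
      simp only [h3, mul_sum]
      rw [sum_comm]
      refine sum_le_sum fun d _ => ?_
      by_cases h4 : (fam x d.1 ∩ fam y d.2).card ≤ h
      · rw [ind_true h4, mul_one]
        refine (hgood (fam x) (fam y) (sum_fam hN x y) d h4).trans (le_of_eq ?_)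
        refine sum_congr rfl fun ω _ => ?_
        by_cases h5 : (query ω d (gam ω (fam x) (fam y) d)).eval (fam x) (fam y)
            (cell ω (fam x) (fam y)) = fam x d.1 ∩ fam y d.2
        · rw [if_pos h5, if_pos ⟨h5, h4⟩, mul_one]
        · rw [if_neg h5, if_neg fun h6 => h5 h6.1, mul_zero]
      · rw [ind_false h4, mul_zero]
        exact sum_nonneg fun ω _ => mul_nonneg (hp ω) (by split_ifs <;> norm_num)
    refine le_trans ?_ (av_mono fun x => av_mono fun y => h2 x y)
    simp only [av_sum, av_mul]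
    calc 3 / 8 * (k : ℝ) ^ 2 = ∑ _d : Fin k × Fin k, 1 / 2 * (3 / 4 : ℝ) := by
          simp
          ring
      _ ≤ _ := sum_le_sum fun d _ => mul_le_mul_of_nonneg_left
          (small_inter (by omega) h4M d.1 d.2) (by norm_num)
  have h1 : ∑ ω, p ω * av (fun x : Fin k × Fin M → Fin K => av fun y : Fin k × Fin M → Fin K =>
      ((good (cell ω) (fun d => query ω d (gam ω (fam x) (fam y) d)) h x y).card : ℝ)) ≤
      ∑ ω, p ω * (9 / 32 * (k : ℝ) ^ 2) :=
    sum_le_sum fun ω _ => mul_le_mul_of_nonneg_left (hup ω) (hp ω)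
  rw [← sum_mul, hp1, one_mul] at h1
  have hk2 : 0 < (k : ℝ) ^ 2 := by positivity
  linarith

/-! ### The numerical form -/

/-- the parameters -/
def rP (t w l T : ℕ) : ℕ := (2 * l + w + tauP t l + 2) / T + 1
/-- the parameters -/
def LP (t w l T : ℕ) : ℕ := 49152 * (8 ^ t * 8 ^ t) * t * tauP t l * rP t w l T
/-- the parameters -/
def qP (b T : ℕ) : ℕ := 64 * b / T + 2
/-- the parameters -/
def KP (t w b l T : ℕ) : ℕ := 2 * (qP b T * LP t w l T)
/-- the parameters -/
def MP (t w b l T : ℕ) : ℕ := KP t w b l T * T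

theorem ML_bound {t r b l T : ℕ} (ht : 1 ≤ t) (hT : 32 * l + 128 ≤ T) :
    4 * MP t (2 * r) b l T * LP t (2 * r) l T ≤
      10 ^ (6 * t + 15) * (b + T) * (r / T + 1) ^ 2 * (l + 1) ^ 2 := by
  obtain ⟨x, hx⟩ : ∃ x, x = r / T + 1 := ⟨_, rfl⟩
  obtain ⟨v, hv⟩ : ∃ v, v = l + 1 := ⟨_, rfl⟩
  have hT0 : 0 < T := by omega
  have hx1 : 1 ≤ x := by
    rw [hx]
    exact Nat.le_add_left _ _
  have hτ : tauP t l ≤ 7 * (t * v) := by
    unfold tauP
    have h1 : v ≤ t * v := Nat.le_mul_of_pos_left _ ht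
    have h2 : t ≤ t * v := Nat.le_mul_of_pos_right _ (by omega)
    omega
  have hρ : rP t (2 * r) l T ≤ 4 * (t * x) := by
    unfold rP
    have h1 : (2 * l + 2 * r + tauP t l + 2) / T + 1 ≤ 2 * x + t + 1 := by
      have h2 : (2 * l + 2 * r + tauP t l + 2) / T < 2 * x + t + 1 := by
        rw [Nat.div_lt_iff_lt_mul hT0]
        have h3 : r < T * x := by
          rw [hx]
          exact Nat.lt_mul_div_succ r hT0
        have h4 : (2 * x + t + 1) * T = 2 * (T * x) + (t + 1) * T := by ring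
        have h5 : t * T + T = (t + 1) * T := by ring
        have h6 : t * 2 ≤ t * T := Nat.mul_le_mul_left _ (by omega)
        unfold tauP
        omega
      omega
    have h2 : x ≤ t * x := Nat.le_mul_of_pos_left _ ht
    have h3 : t ≤ t * x := Nat.le_mul_of_pos_right _ hx1
    have h4 : 1 ≤ t * x := Nat.mul_pos ht hx1
    omega
  have hq : qP b T * T ≤ 64 * (b + T) := by
    unfold qP
    have h1 : 64 * b / T * T ≤ 64 * b := Nat.div_mul_le_self _ _
    have h2 : (64 * b / T + 2) * T = 64 * b / T * T + 2 * T := by ring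
    omega
  have hL : LP t (2 * r) l T ≤ 49152 * (8 ^ t * 8 ^ t) * t * (7 * (t * v)) * (4 * (t * x)) := by
    unfold LP
    gcongr
  have ht2 : t ^ 6 ≤ 64 ^ t := by
    have h1 : t ≤ 2 ^ t := Nat.lt_two_pow_self.le
    calc t ^ 6 ≤ (2 ^ t) ^ 6 := Nat.pow_le_pow_left h1 6
      _ = 64 ^ t := by
          rw [← pow_mul, mul_comm, pow_mul]
          norm_num
  have h8 : ((8 ^ t * 8 ^ t) * (8 ^ t * 8 ^ t)) * 64 ^ t ≤ 10 ^ (6 * t) := by
    have h1 : ((8 ^ t * 8 ^ t) * (8 ^ t * 8 ^ t)) * 64 ^ t = 262144 ^ t := by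
      rw [← mul_pow, ← mul_pow, ← mul_pow]
      norm_num
    rw [h1, pow_mul]
    exact Nat.pow_le_pow_left (by norm_num) t
  rw [← hx, ← hv]
  unfold MP KP
  calc 4 * (2 * (qP b T * LP t (2 * r) l T) * T) * LP t (2 * r) l T
      = 8 * (qP b T * T) * (LP t (2 * r) l T * LP t (2 * r) l T) := by ring
    _ ≤ 8 * (64 * (b + T)) *
        ((49152 * (8 ^ t * 8 ^ t) * t * (7 * (t * v)) * (4 * (t * x))) *
        (49152 * (8 ^ t * 8 ^ t) * t * (7 * (t * v)) * (4 * (t * x)))) := by
          gcongr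
    _ = 969769255698432 * (((8 ^ t * 8 ^ t) * (8 ^ t * 8 ^ t)) * t ^ 6) *
        ((b + T) * x ^ 2 * v ^ 2) := by ring
    _ ≤ 10 ^ 15 * (((8 ^ t * 8 ^ t) * (8 ^ t * 8 ^ t)) * 64 ^ t) *
        ((b + T) * x ^ 2 * v ^ 2) := by gcongr; norm_num
    _ ≤ 10 ^ 15 * 10 ^ (6 * t) * ((b + T) * x ^ 2 * v ^ 2) := by gcongr
    _ = 10 ^ (6 * t + 15) * (b + T) * x ^ 2 * v ^ 2 := by rw [pow_add]; ring

end Pool.Agent.V8H11.LI
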