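import Pool.Agent.V8H11.LI.LemA

set_option autoImplicit false

/-!
# The bilinear inequality
-/

namespace Pool.Agent.V8H11.LI

open Finset
open Pool.Agent.Y516.OJ (ind)
open Pool.Agent.Y85.OJ (ind_true ind_false ind_nonneg)

variable {ι : Type} [Fintype ι] [DecidableEq ι] {K : ℕ}

/-- the operator of the kernel -/
noncomputable def Top (S : Finset (ι × ι)) (g : (ι → Fin K) → ℝ) (x : ι → Fin K) : ℝ :=
  av fun y => g y * ind (∀ d ∈ S, x d.1 ≠ y d.2)

theorem compat_iff (S : Finset (ι × ι)) (x y : ι → Fin K) :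
    (∀ d ∈ S, x d.1 ≠ y d.2) ↔ ∀ i, x i ∉ im S univ y i := by
  unfold im
  constructor
  · intro h i hi
    obtain ⟨j, hj, hji⟩ := mem_image.1 hi
    exact h (i, j) (mem_filter.1 hj).2 hji.symm
  · intro h d hd hxy
    refine h d.1 (mem_image.2 ⟨d.2, mem_filter.2 ⟨mem_univ _, hd⟩, hxy.symm⟩)

theorem ind_mul (P Q : Prop) : ind P * ind Q = ind (P ∧ Q) := by
  by_cases hP : P
  · by_cases hQ : Q
    · rw [ind_true hP, ind_true hQ, ind_true (show P ∧ Q from ⟨hP, hQ⟩), one_mul]
    · rw [ind_false hQ, ind_false (show ¬ (P ∧ Q) from fun h => hQ h.2), mul_zero]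
  · rw [ind_false hP, ind_false (show ¬ (P ∧ Q) from fun h => hP h.1), zero_mul]

theorem ind_congr {P Q : Prop} (h : P ↔ Q) : ind P = ind Q := by
  rw [propext h]

/-- the moments -/
noncomputable def Gm (S : Finset (ι × ι)) (g : (ι → Fin K) → ℝ) (n : ℕ)
    (W : ι → Finset (Fin K)) : ℝ :=
  av fun x => ind (∀ i, x i ∉ W i) * Top S g x ^ n

theorem Gm_succ (S : Finset (ι × ι)) (g : (ι → Fin K) → ℝ) (n : ℕ) (W : ι → Finset (Fin K)) :
    Gm S g (n + 1) W = av fun y => g y * Gm S g n (fun i => W i ∪ im S univ y i) := by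
  have h1 : Gm S g (n + 1) W = av fun x => av fun y =>
      g y * (ind (∀ i, x i ∉ W i ∪ im S univ y i) * Top S g x ^ n) := by
    unfold Gm
    congr 1
    funext x
    rw [pow_succ]
    have h2 : ind (∀ i, x i ∉ W i) * (Top S g x ^ n * Top S g x) =
        (ind (∀ i, x i ∉ W i) * Top S g x ^ n) * Top S g x := by ring
    rw [h2]
    conv_lhs => rw [show Top S g x = av fun y => g y * ind (∀ d ∈ S, x d.1 ≠ y d.2) from rfl]
    rw [show Top S g x = av fun y => g y * ind (∀ d ∈ S, x d.1 ≠ y d.2) from rfl, ← av_mul]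
    congr 1
    funext y
    have h3 : ind (∀ i, x i ∉ W i ∪ im S univ y i) =
        ind (∀ i, x i ∉ W i) * ind (∀ d ∈ S, x d.1 ≠ y d.2) := by
      rw [ind_mul]
      refine ind_congr ?_
      rw [compat_iff]
      simp only [mem_union, not_or]
      exact forall_and
    rw [h3]
    ring
  rw [h1, av_comm]
  congr 1
  funext y
  rw [av_mul]
  rfl

theorem Top_nonneg (S : Finset (ι × ι)) {g : (ι → Fin K) → ℝ} (hg : ∀ y, 0 ≤ g y)
    (x : ι → Fin K) : 0 ≤ Top S g x := av_nonneg fun y => mul_nonneg (hg y) (ind_nonneg _)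

/-- the norm -/
noncomputable def nrm {A : Type} [Fintype A] (p : ℝ) (f : A → ℝ) : ℝ :=
  (av fun a => f a ^ p) ^ (1 / p)

theorem nrm_nonneg {A : Type} [Fintype A] (p : ℝ) {f : A → ℝ} (hf : ∀ a, 0 ≤ f a) :
    0 ≤ nrm p f := Real.rpow_nonneg (av_nonneg fun a => Real.rpow_nonneg (hf a) _) _

theorem av_holder {A : Type} [Fintype A] {f g : A → ℝ} (hf : ∀ a, 0 ≤ f a)
    (hg : ∀ a, 0 ≤ g a) {p q : ℝ} (hpq : p.HolderConjugate q) :
    av (fun a => f a * g a) ≤ nrm p f * nrm q g :=
  Pool.Agent.V8H11.JP.holder (w := fun _ => 1 / (Fintype.card A : ℝ)) (fun _ => by positivity)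
    hf hg hpq

theorem lemB [NeZero K] {S : Finset (ι × ι)} {Δ q : ℕ} {p : ℝ}
    (hΔ1 : ∀ i, (S.filter fun d => d.1 = i).card ≤ Δ)
    (hΔ2 : ∀ j, (S.filter fun d => d.2 = j).card ≤ Δ) (hq : 1 ≤ q)
    (hpq : p.HolderConjugate q) (hK : 2 * (q * Δ) ≤ K) {g : (ι → Fin K) → ℝ}
    (hg : ∀ y, 0 ≤ g y) :
    ∀ n : ℕ, n ≤ q → ∀ W : ι → Finset (Fin K), (∀ i, (W i).card ≤ (q - n) * Δ) →
      Gm S g n W ≤ (nrm p g * Real.exp (-(S.card / (4 * (K : ℝ))))) ^ n *
        Real.exp (-(1 / (K : ℝ) * ∑ i, ((W i).card : ℝ))) := by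
  intro n
  have hK0 : (0 : ℝ) < K := by exact_mod_cast Nat.pos_of_ne_zero (NeZero.ne K)
  have hq0 : (0 : ℝ) < q := by exact_mod_cast (show 0 < q by omega)
  obtain ⟨G, hG⟩ : ∃ G : ℝ, G = nrm p g := ⟨_, rfl⟩
  have hG0 : 0 ≤ G := by rw [hG]; exact nrm_nonneg p hg
  rw [← hG]
  induction n with
  | zero =>
    intro _ W _
    unfold Gm
    simp only [pow_zero, mul_one, one_mul]
    exact av_avoid W
  | succ n ih =>
    intro hn W hW
    have ih' := ih (by omega)
    rw [Gm_succ]
    obtain ⟨c, hc⟩ : ∃ c : ℝ, c = G * Real.exp (-(S.card / (4 * (K : ℝ)))) := ⟨_, rfl⟩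
    have hc0 : 0 ≤ c := by rw [hc]; positivity
    rw [← hc] at ih' ⊢
    have hnq : q - (n + 1) + 1 = q - n := by omega
    have hcard : ∀ (y : ι → Fin K) i, (im S univ y i).card ≤ Δ := by
      intro y i
      refine le_trans ?_ (hΔ1 i)
      unfold im
      refine card_image_le.trans ?_
      rw [← card_image_of_injective (univ.filter fun j => (i, j) ∈ S)
        (f := fun j => (i, j)) (fun a b h => congrArg Prod.snd h)]
      refine card_le_card fun d hd => ?_
      obtain ⟨j, hj, rfl⟩ := mem_image.1 hd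
      exact mem_filter.2 ⟨(mem_filter.1 hj).2, rfl⟩
    obtain ⟨e, he⟩ : ∃ e : ℝ, e = Real.exp (-(1 / (K : ℝ) * ∑ i, ((W i).card : ℝ))) := ⟨_, rfl⟩
    have he0 : 0 < e := by rw [he]; exact Real.exp_pos _
    rw [← he]
    have hpt : ∀ y, g y * Gm S g n (fun i => W i ∪ im S univ y i) ≤
        (c ^ n * e) * (g y * Real.exp (-(1 / (K : ℝ) * nw S W univ y))) := by
      intro y
      have h1 := ih' (fun i => W i ∪ im S univ y i) (fun i => by
        have h2 := card_union_le (W i) (im S univ y i)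
        have h3 := hW i
        have h4 := hcard y i
        calc (W i ∪ im S univ y i).card ≤ (q - (n + 1)) * Δ + Δ := by omega
          _ = (q - n) * Δ := by rw [← hnq]; ring)
      have h2 : (∑ i, ((W i ∪ im S univ y i).card : ℝ)) = ∑ i, ((W i).card : ℝ) +
          nw S W univ y := by
        unfold nw
        push_cast
        rw [← sum_add_distrib]
        refine sum_congr rfl fun i _ => ?_
        have h3 : W i ∪ im S univ y i = W i ∪ (im S univ y i \ W i) := by
          rw [union_sdiff_self_eq_union]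
        rw [h3, card_union_of_disjoint disjoint_sdiff]
        push_cast
        rfl
      rw [h2, mul_add, neg_add, Real.exp_add, ← he] at h1
      calc g y * Gm S g n (fun i => W i ∪ im S univ y i)
          ≤ g y * (c ^ n * (e * Real.exp (-(1 / (K : ℝ) * nw S W univ y)))) :=
            mul_le_mul_of_nonneg_left h1 (hg y)
        _ = _ := by ring
    refine (av_mono hpt).trans ?_
    rw [av_mul]
    have hH := av_holder (f := g) (g := fun y => Real.exp (-(1 / (K : ℝ) * nw S W univ y)))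
      hg (fun y => (Real.exp_pos _).le) hpq
    have hE : nrm (q : ℝ) (fun y : ι → Fin K => Real.exp (-(1 / (K : ℝ) * nw S W univ y))) ≤
        Real.exp (-(S.card / (4 * (K : ℝ)))) := by
      have b1 := lemA (S := S) (W := W) (lam := (q : ℝ) / K) hΔ1 hΔ2 (by positivity)
        (by
          rw [div_mul_eq_mul_div, div_le_one hK0]
          have : q * Δ ≤ K := by omega
          exact_mod_cast this)
        (fun i => by
          have h3 := hW i
          have h4 : (q - (n + 1)) * Δ + Δ ≤ q * Δ := by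
            calc (q - (n + 1)) * Δ + Δ = (q - n) * Δ := by rw [← hnq]; ring
              _ ≤ q * Δ := Nat.mul_le_mul_right _ (Nat.sub_le _ _)
          omega) univ
      have b2 : (S.filter fun d => d.2 ∈ (univ : Finset ι)) = S :=
        filter_true_of_mem fun d _ => mem_univ _
      rw [b2] at b1
      unfold nrm
      have b3 : (av fun y : ι → Fin K => Real.exp (-(1 / (K : ℝ) * nw S W univ y)) ^ (q : ℝ)) ≤
          Real.exp (-((q : ℝ) / K / 4 * S.card)) := by
        refine le_trans (le_of_eq ?_) b1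
        congr 1
        funext y
        rw [← Real.exp_mul]
        congr 1
        ring
      refine (Real.rpow_le_rpow (av_nonneg fun y => Real.rpow_nonneg (Real.exp_pos _).le _) b3
        (by positivity)).trans (le_of_eq ?_)
      rw [← Real.exp_mul]
      congr 1
      field_simp
    calc c ^ n * e * av (fun y => g y * Real.exp (-(1 / (K : ℝ) * nw S W univ y)))
        ≤ c ^ n * e * (G * Real.exp (-(S.card / (4 * (K : ℝ))))) := by
          refine mul_le_mul_of_nonneg_left (hH.trans ?_) (by positivity)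
          rw [← hG]
          exact mul_le_mul_of_nonneg_left hE hG0
      _ = c ^ (n + 1) * e := by rw [← hc, pow_succ]; ring

/-- **The bilinear inequality.** -/
theorem ker [NeZero K] {S : Finset (ι × ι)} {Δ q : ℕ} {p : ℝ}
    (hΔ1 : ∀ i, (S.filter fun d => d.1 = i).card ≤ Δ)
    (hΔ2 : ∀ j, (S.filter fun d => d.2 = j).card ≤ Δ) (hq : 1 ≤ q)
    (hpq : p.HolderConjugate q) (hK : 2 * (q * Δ) ≤ K) {f g : (ι → Fin K) → ℝ}
    (hf : ∀ x, 0 ≤ f x) (hg : ∀ y, 0 ≤ g y) :
    av (fun x => av fun y => f x * g y * ind (∀ d ∈ S, x d.1 ≠ y d.2)) ≤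
      Real.exp (-(S.card / (4 * (K : ℝ)))) * (nrm p f * nrm p g) := by
  have hq0 : (0 : ℝ) < q := by exact_mod_cast (show 0 < q by omega)
  have h1 : av (fun x => av fun y => f x * g y * ind (∀ d ∈ S, x d.1 ≠ y d.2)) =
      av fun x => f x * Top S g x := by
    congr 1
    funext x
    unfold Top
    rw [← av_mul]
    congr 1
    funext y
    ring
  rw [h1]
  have hH := av_holder (f := f) (g := Top S g) hf (Top_nonneg S hg) hpq
  have hB := lemB hΔ1 hΔ2 hq hpq hK hg q le_rfl (fun _ => ∅) (fun i => by simp)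
  have h2 : (av fun x => Top S g x ^ (q : ℝ)) = Gm S g q fun _ => ∅ := by
    unfold Gm
    congr 1
    funext x
    rw [Real.rpow_natCast, ind_true (fun i => by simp), one_mul]
  have hG0 := nrm_nonneg p hg
  have hT : nrm (q : ℝ) (Top S g) ≤ nrm p g * Real.exp (-(S.card / (4 * (K : ℝ)))) := by
    unfold nrm at hB ⊢
    rw [h2]
    simp only [card_empty, Nat.cast_zero, sum_const_zero, mul_zero, neg_zero, Real.exp_zero,
      mul_one] at hB
    have h3 : 0 ≤ Gm S g q fun _ => ∅ := by
      rw [← h2]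
      exact av_nonneg fun x => Real.rpow_nonneg (Top_nonneg S hg x) _
    refine (Real.rpow_le_rpow h3 hB (by positivity)).trans (le_of_eq ?_)
    have h4 : 0 ≤ (av fun a => g a ^ p) ^ (1 / p) * Real.exp (-(S.card / (4 * (K : ℝ)))) :=
      mul_nonneg hG0 (Real.exp_pos _).le
    rw [← Real.rpow_natCast, ← Real.rpow_mul h4, mul_one_div_cancel hq0.ne', Real.rpow_one]
  calc av (fun x => f x * Top S g x) ≤ nrm p f * nrm q (Top S g) := hH
    _ ≤ nrm p f * (nrm p g * Real.exp (-(S.card / (4 * (K : ℝ))))) :=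
        mul_le_mul_of_nonneg_left hT (nrm_nonneg p hf)
    _ = _ := by ring

end Pool.Agent.V8H11.LI
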