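import Pool.Agent.V8H11.LI.Av

set_option autoImplicit false

/-!
# The number of new values
-/

namespace Pool.Agent.V8H11.LI

open Finset
open Pool.Agent.Y516.OJ (ind)
open Pool.Agent.Y85.OJ (ind_true ind_false ind_nonneg)

variable {ι : Type} [Fintype ι] [DecidableEq ι] {K : ℕ}

/-- the values of `y` on the neighbours of `i` in `J` -/
def im (S : Finset (ι × ι)) (J : Finset ι) (y : ι → Fin K) (i : ι) : Finset (Fin K) :=
  (J.filter fun j => (i, j) ∈ S).image y

/-- the number of the new values -/
def nw (S : Finset (ι × ι)) (W : ι → Finset (Fin K)) (J : Finset ι) (y : ι → Fin K) : ℕ :=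
  ∑ i, (im S J y i \ W i).card

omit [Fintype ι] in
theorem im_update {S : Finset (ι × ι)} {J : Finset ι} {j : ι} (hj : j ∉ J) (y : ι → Fin K)
    (v : Fin K) (i : ι) : im S J (Function.update y j v) i = im S J y i := by
  unfold im
  refine image_congr fun j' hj' => ?_
  rw [mem_coe, mem_filter] at hj'
  refine Function.update_of_ne ?_ _ _
  rintro rfl
  exact hj hj'.1

theorem nw_update {S : Finset (ι × ι)} {W : ι → Finset (Fin K)} {J : Finset ι} {j : ι}
    (hj : j ∉ J) (y : ι → Fin K) (v : Fin K) :
    nw S W J (Function.update y j v) = nw S W J y := by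
  unfold nw
  exact sum_congr rfl fun i _ => by rw [im_update hj]

theorem nw_insert {S : Finset (ι × ι)} {W : ι → Finset (Fin K)} {J : Finset ι} {j : ι}
    (hj : j ∉ J) (y : ι → Fin K) :
    nw S W (insert j J) y = nw S W J y +
      ((univ.filter fun i => (i, j) ∈ S).filter fun i => y j ∉ W i ∪ im S J y i).card := by
  unfold nw
  rw [card_filter, sum_filter, ← sum_add_distrib]
  refine sum_congr rfl fun i _ => ?_
  by_cases h1 : (i, j) ∈ S
  · rw [if_pos h1]
    have h2 : im S (insert j J) y i = insert (y j) (im S J y i) := by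
      unfold im
      rw [filter_insert, if_pos h1, image_insert]
    rw [h2]
    by_cases h3 : y j ∉ W i ∪ im S J y i
    · rw [if_pos h3]
      rw [mem_union, not_or] at h3
      rw [insert_sdiff_of_notMem _ h3.1, card_insert_of_notMem]
      intro h4
      exact h3.2 (mem_sdiff.1 h4).1
    · rw [if_neg h3, add_zero]
      push Not at h3
      rw [mem_union] at h3
      by_cases h4 : y j ∈ W i
      · rw [insert_sdiff_of_mem _ h4]
      · have h5 : y j ∈ im S J y i := h3.resolve_left h4
        rw [insert_eq_self.2 h5]
  · rw [if_neg h1, add_zero]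
    have h2 : im S (insert j J) y i = im S J y i := by
      unfold im
      rw [filter_insert, if_neg h1]
    rw [h2]

/-- one coordinate -/
theorem one_coord [NeZero K] {D : Finset ι} {lam : ℝ} (h0 : 0 ≤ lam) (h1 : lam * D.card ≤ 1)
    (B : ι → Finset (Fin K)) (hB : ∀ i, 2 * (B i).card ≤ K) :
    av (fun v : Fin K => Real.exp (-(lam * ((D.filter fun i => v ∉ B i).card : ℝ)))) ≤
      Real.exp (-(lam * D.card / 4)) := by
  have hK : (0 : ℝ) < K := by exact_mod_cast Nat.pos_of_ne_zero (NeZero.ne K)
  have hne : Nonempty (Fin K) := ⟨⟨0, Nat.pos_of_ne_zero (NeZero.ne K)⟩⟩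
  have h2 : ∀ v : Fin K, Real.exp (-(lam * ((D.filter fun i => v ∉ B i).card : ℝ))) ≤
      1 - lam / 2 * ∑ i ∈ D, ind (v ∉ B i) := by
    intro v
    have h3 : ((D.filter fun i => v ∉ B i).card : ℝ) = ∑ i ∈ D, ind (v ∉ B i) := by
      rw [card_filter]
      push_cast
      refine sum_congr rfl fun i _ => ?_
      by_cases h : v ∉ B i
      · rw [ind_true h, if_pos h]
      · rw [ind_false h, if_neg h]
    have h4 : ((D.filter fun i => v ∉ B i).card : ℝ) ≤ D.card := by
      exact_mod_cast card_le_card (filter_subset _ _)
    have h5 := Pool.Agent.V8H11.JP.exp_small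
      (z := lam * ((D.filter fun i => v ∉ B i).card : ℝ)) (by positivity)
      ((mul_le_mul_of_nonneg_left h4 h0).trans h1)
    rw [← h3]
    linarith
  refine (av_mono h2).trans ?_
  rw [av_sub, av_const, av_mul, av_sum]
  have h6 : (D.card : ℝ) / 2 ≤ ∑ i ∈ D, av (fun v : Fin K => ind (v ∉ B i)) := by
    calc (D.card : ℝ) / 2 = ∑ _i ∈ D, (1 / 2 : ℝ) := by
          rw [sum_const, nsmul_eq_mul]
          ring
      _ ≤ _ := by
          refine sum_le_sum fun i _ => ?_
          rw [av_ind_notMem]
          have h7 : 2 * ((B i).card : ℝ) ≤ K := by exact_mod_cast hB i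
          have h8 : ((B i).card : ℝ) / K ≤ 1 / 2 := by
            rw [div_le_iff₀ hK]
            linarith
          linarith
  have h9 := mul_le_mul_of_nonneg_left h6 (show 0 ≤ lam / 2 by positivity)
  have h10 := Real.add_one_le_exp (-(lam * D.card / 4))
  linarith

theorem lemA [NeZero K] {S : Finset (ι × ι)} {Δ : ℕ} {lam : ℝ} {W : ι → Finset (Fin K)}
    (hΔ1 : ∀ i, (S.filter fun d => d.1 = i).card ≤ Δ)
    (hΔ2 : ∀ j, (S.filter fun d => d.2 = j).card ≤ Δ) (h0 : 0 ≤ lam) (h1 : lam * Δ ≤ 1)
    (hW : ∀ i, 2 * ((W i).card + Δ) ≤ K) (J : Finset ι) :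
    av (fun y : ι → Fin K => Real.exp (-(lam * nw S W J y))) ≤
      Real.exp (-(lam / 4 * ((S.filter fun d => d.2 ∈ J).card : ℝ))) := by
  have hne : Nonempty (Fin K) := ⟨⟨0, Nat.pos_of_ne_zero (NeZero.ne K)⟩⟩
  induction J using Finset.induction_on with
  | empty =>
    refine le_of_eq ?_
    have h2 : ∀ y : ι → Fin K, nw S W ∅ y = 0 := by
      intro y
      unfold nw im
      simp
    simp only [h2]
    simp [av_const]
  | insert j J hj ih =>
    rw [av_update j]
    have h2 : ∀ y : ι → Fin K, av (fun v : Fin K =>
        Real.exp (-(lam * nw S W (insert j J) (Function.update y j v)))) ≤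
        Real.exp (-(lam * ((univ.filter fun i => (i, j) ∈ S).card : ℝ) / 4)) *
          Real.exp (-(lam * nw S W J y)) := by
      intro y
      have h3 : ∀ v : Fin K, Real.exp (-(lam * nw S W (insert j J) (Function.update y j v))) =
          Real.exp (-(lam * nw S W J y)) * Real.exp (-(lam *
            (((univ.filter fun i => (i, j) ∈ S).filter fun i => v ∉ W i ∪ im S J y i).card : ℝ))) := by
        intro v
        rw [nw_insert hj, nw_update hj, Function.update_self, ← Real.exp_add]
        simp only [im_update hj]
        congr 1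
        push_cast
        ring
      simp only [h3]
      rw [av_mul, mul_comm]
      refine mul_le_mul_of_nonneg_right ?_ (Real.exp_pos _).le
      refine one_coord h0 ?_ (fun i => W i ∪ im S J y i) ?_
      · refine le_trans (mul_le_mul_of_nonneg_left ?_ h0) h1
        have h4 : (univ.filter fun i => (i, j) ∈ S).card ≤ Δ := by
          refine le_trans ?_ (hΔ2 j)
          rw [← card_image_of_injective (univ.filter fun i => (i, j) ∈ S)
            (f := fun i => (i, j)) (fun a b h => congrArg Prod.fst h)]
          refine card_le_card fun d hd => ?_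
          obtain ⟨i, hi, rfl⟩ := mem_image.1 hd
          exact mem_filter.2 ⟨(mem_filter.1 hi).2, rfl⟩
        exact_mod_cast h4
      · intro i
        have h4 : (im S J y i).card ≤ Δ := by
          refine le_trans ?_ (hΔ1 i)
          unfold im
          refine card_image_le.trans ?_
          rw [← card_image_of_injective (J.filter fun j => (i, j) ∈ S)
            (f := fun j => (i, j)) (fun a b h => congrArg Prod.snd h)]
          refine card_le_card fun d hd => ?_
          obtain ⟨i, hi, rfl⟩ := mem_image.1 hd
          exact mem_filter.2 ⟨(mem_filter.1 hi).2, rfl⟩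
        have h5 := card_union_le (W i) (im S J y i)
        have h6 := hW i
        show 2 * (W i ∪ im S J y i).card ≤ K
        omega
    refine (av_mono h2).trans ?_
    rw [av_mul]
    refine (mul_le_mul_of_nonneg_left ih (Real.exp_pos _).le).trans (le_of_eq ?_)
    rw [← Real.exp_add]
    congr 1
    have h3 : (S.filter fun d => d.2 ∈ insert j J).card =
        (univ.filter fun i => (i, j) ∈ S).card + (S.filter fun d => d.2 ∈ J).card := by
      have h4 : (univ.filter fun i => (i, j) ∈ S).card = (S.filter fun d => d.2 = j).card := by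
        rw [← card_image_of_injective (univ.filter fun i => (i, j) ∈ S)
            (f := fun i => (i, j)) (fun a b h => congrArg Prod.fst h)]
        congr 1
        ext d
        rw [mem_image, mem_filter]
        constructor
        · rintro ⟨i, hi, rfl⟩
          exact ⟨(mem_filter.1 hi).2, rfl⟩
        · rintro ⟨h5, h6⟩
          refine ⟨d.1, mem_filter.2 ⟨mem_univ _, ?_⟩, ?_⟩
          · rw [← h6]
            exact h5
          · rw [← h6]
      rw [h4, ← card_union_of_disjoint]
      · congr 1
        ext d
        simp only [mem_filter, mem_union, mem_insert]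
        tauto
      · rw [disjoint_left]
        intro d h5 h6
        exact hj ((mem_filter.1 h5).2 ▸ (mem_filter.1 h6).2)
    rw [h3]
    push_cast
    ring

end Pool.Agent.V8H11.LI
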