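import Pool.Agent.V8H11.JP.Iter

set_option autoImplicit false

/-!
# Many queries whose probes all lie in a small set of cells
-/

namespace Pool.Agent.V8H11.LI

open Finset
open Pool.Agent.V8H11.JP

variable {k s : ℕ}

theorem row_le (G : Finset (Fin k × Fin k)) (i : Fin k) :
    (G.filter fun d => d.1 = i).card ≤ k := by
  have h2 : (G.filter fun d => d.1 = i).card =
      ((G.filter fun d => d.1 = i).image Prod.snd).card := by
    rw [card_image_of_injOn]
    intro a ha b hb hab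
    rw [mem_coe, mem_filter] at ha hb
    exact Prod.ext (ha.2.trans hb.2.symm) hab
  rw [h2]
  exact (card_le_univ _).trans (by rw [Fintype.card_fin])

theorem col_le (G : Finset (Fin k × Fin k)) (i : Fin k) :
    (G.filter fun d => d.2 = i).card ≤ k := by
  have h2 : (G.filter fun d => d.2 = i).card =
      ((G.filter fun d => d.2 = i).image Prod.fst).card := by
    rw [card_image_of_injOn]
    intro a ha b hb hab
    rw [mem_coe, mem_filter] at ha hb
    exact Prod.ext hab (ha.2.trans hb.2.symm)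
  rw [h2]
  exact (card_le_univ _).trans (by rw [Fintype.card_fin])

theorem samples (hk : 1 ≤ k) (G : Finset (Fin k × Fin k)) (hG : (k : ℝ) ^ 2 / 4 ≤ G.card)
    (a : ℕ → Fin k × Fin k → Fin s) (y τ : ℝ) (t n : ℕ)
    (hy0 : 0 < y) (hy1 : y ≤ 1) (hτ0 : 0 < τ) (hys : y / 4 * s ≤ k * τ)
    (hτ : 8 * k * Real.exp (-(2 * τ)) ≤ y / 4 * ((1 / 8) ^ t / 4)) (hL : 4 * τ ≤ y ^ t * k)
    (hn : 48 * k * τ / ((1 / 8) ^ t / 4) ≤ n) : ∀ l ≤ t,
    ∃ (D : Finset (Fin k × Fin k)) (V : Finset (Fin s)), D ⊆ G ∧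
      (∀ i, ((D.filter fun d => d.1 = i).card : ℝ) ≤ y ^ l * k) ∧
      (∀ j, ((D.filter fun d => d.2 = j).card : ℝ) ≤ y ^ l * k) ∧
      (1 / 8) ^ l / 4 * k * (y ^ l * k) ≤ D.card ∧ V.card ≤ n * l ∧
      ∀ d ∈ D, ∀ i < l, a i d ∈ V := by
  classical
  have hkR : (1 : ℝ) ≤ k := by exact_mod_cast hk
  have hk0 : (0 : ℝ) < k := by linarith
  intro l
  induction l with
  | zero =>
    intro _
    refine ⟨G, ∅, Subset.rfl, fun i => ?_, fun i => ?_, ?_, by simp, fun d _ i hi => absurd hi (by omega)⟩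
    · rw [pow_zero, one_mul]
      exact_mod_cast row_le G i
    · rw [pow_zero, one_mul]
      exact_mod_cast col_le G i
    · rw [pow_zero, pow_zero]
      refine le_trans (le_of_eq ?_) hG
      ring
  | succ l ih =>
    intro hl
    obtain ⟨D, V, hDG, hd1, hd2, hD, hV, ha⟩ := ih (by omega)
    have hyl : y ^ t * k ≤ y * (y ^ l * k) := by
      have h1 : y ^ t ≤ y ^ (l + 1) := pow_le_pow_of_le_one hy0.le hy1 hl
      have h2 : y ^ t * k ≤ y ^ (l + 1) * k := mul_le_mul_of_nonneg_right h1 hk0.le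
      rw [pow_succ] at h2
      linarith
    obtain ⟨θ, hθ, hθ1, hθ2⟩ := exists_theta (x := y / 4 * (y ^ l * k)) hτ0 (by linarith)
    have hκl : (1 / 8 : ℝ) ^ t / 4 ≤ (1 / 8) ^ l / 4 := by
      have h1 : (1 / 8 : ℝ) ^ t ≤ (1 / 8) ^ l :=
        pow_le_pow_of_le_one (by norm_num) (by norm_num) (by omega)
      linarith
    have hκ0 : (0 : ℝ) < (1 / 8) ^ t / 4 := by positivity
    have hκl0 : (0 : ℝ) < (1 / 8) ^ l / 4 := by positivity
    obtain ⟨U, hU, h1, h2, h3, h4⟩ := sample hk D (a l) (fun _ => 1) (y ^ l * k) (y / 4)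
      ((1 / 8) ^ l / 4) τ θ (fun _ => le_rfl) hd1 hd2 hκl0 (by positivity)
      (by simpa using hD) (by positivity) (by linarith) hτ0 hθ hys
      (hτ.trans (mul_le_mul_of_nonneg_left hκl (by positivity))) hθ1 hθ2
    have e2 : 4 * (y / 4) * (y ^ l * k) = y ^ (l + 1) * k := by
      rw [pow_succ]
      ring
    rw [e2] at h1 h2 h3
    refine ⟨Pool.Agent.V8H11.JP.sub θ D (a l) U, V ∪ U.image Prod.fst, (filter_subset _ _).trans hDG, h1, h2, ?_, ?_, ?_⟩
    · rw [sum_const, nsmul_eq_mul, mul_one] at h3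
      refine le_trans (le_of_eq ?_) h3
      rw [pow_succ (1 / 8 : ℝ) l]
      ring
    · have h5 : (U.card : ℝ) ≤ n :=
        h4.trans ((div_le_div_of_nonneg_left (by positivity) hκ0 hκl).trans hn)
      have h6 : U.card ≤ n := by exact_mod_cast h5
      calc (V ∪ U.image Prod.fst).card ≤ V.card + (U.image Prod.fst).card := card_union_le _ _
        _ ≤ n * l + n := add_le_add hV (card_image_le.trans h6)
        _ = n * (l + 1) := by ring
    · intro d hd i hi
      unfold Pool.Agent.V8H11.JP.sub at hd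
      rw [mem_filter] at hd
      rcases Nat.lt_succ_iff_lt_or_eq.1 hi with h5 | h5
      · exact mem_union_left _ (ha d hd.1 i h5)
      · subst h5
        exact mem_union_right _ (mem_image.2 ⟨_, hd.2, rfl⟩)

end Pool.Agent.V8H11.LI
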