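import Pool.Agent.V8H11.LI.Direct
import Pool.Agent.V8H11.LI.Samp
import Pool.Agent.V8H11.JP.Main

set_option autoImplicit false

/-!
# The main inequality for listing
-/

namespace Pool.Agent.V8H11.LI

open Finset
open Pool.Agent.Y516.OJ (ind)
open Pool.Agent.Y85.OJ (ind_true ind_false ind_nonneg)
open Pool.Agent.V8H11.JP (tauP exists_y hcond two_mul_le_two_pow exists_enum)

/-- the table with the contents `σ` -/
noncomputable def tab {s w r : ℕ} (σ : Fin r → Option (Fin s × Fin (2 ^ w))) (c : Fin s) :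
    Option (Fin (2 ^ w)) :=
  open Classical in if h : ∃ v, ∃ i, σ i = some (c, v) then some h.choose else none

theorem exists_tab {s w r : ℕ} (V : Finset (Fin s)) (hV : V.card ≤ r) (J : Fin s → Fin (2 ^ w)) :
    ∃ σ : Fin r → Option (Fin s × Fin (2 ^ w)), ∀ c ∈ V, tab σ c = some (J c) := by
  classical
  obtain ⟨σ, hσ⟩ := exists_enum (V.image fun c => (c, J c)) (card_image_le.trans hV)
  refine ⟨σ, fun c hc => ?_⟩
  have h1 : ∃ v, ∃ i, σ i = some (c, v) :=
    ⟨J c, (hσ (c, J c)).1 (mem_image.2 ⟨c, hc, rfl⟩)⟩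
  unfold tab
  rw [dif_pos h1]
  have h2 := (hσ _).2 h1.choose_spec
  obtain ⟨c', _, hc'⟩ := mem_image.1 h2
  rw [Prod.mk.injEq] at hc'
  rw [← hc'.2, hc'.1]

variable {k M K s w : ℕ}

open Classical in
/-- the queries which are answered correctly -/
noncomputable def good (cell : (Fin k → Finset (Fin (M * K))) → (Fin k → Finset (Fin (M * K))) →
      Fin s → Fin (2 ^ w))
    (query : Fin k × Fin k → Alg (Fin k → Finset (Fin (M * K)))
      (Fin k → Finset (Fin (M * K))) (Finset (Fin (M * K))) s w) (h : ℕ)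
    (x y : Fin k × Fin M → Fin K) : Finset (Fin k × Fin k) :=
  univ.filter fun d => (query d).eval (fam x) (fam y) (cell (fam x) (fam y)) =
    fam x d.1 ∩ fam y d.2 ∧ (fam x d.1 ∩ fam y d.2).card ≤ h

/-- The covering. -/
theorem cover (cell : (Fin k → Finset (Fin (M * K))) → (Fin k → Finset (Fin (M * K))) →
      Fin s → Fin (2 ^ w))
    (query : Fin k × Fin k → Alg (Fin k → Finset (Fin (M * K)))
      (Fin k → Finset (Fin (M * K))) (Finset (Fin (M * K))) s w) (h : ℕ)
    (x y : Fin k × Fin M → Fin K) {t n m L : ℕ} (ht : ∀ d, (query d).probes ≤ t) (c0 : Fin s)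
    (hk : 1 ≤ k) (hG : (k : ℝ) ^ 2 / 4 ≤ (good cell query h x y).card) (z τ : ℝ)
    (hz0 : 0 < z) (hz1 : z ≤ 1) (hτ0 : 0 < τ) (hzs : z / 4 * s ≤ k * τ)
    (hτ : 8 * k * Real.exp (-(2 * τ)) ≤ z / 4 * ((1 / 8) ^ t / 4)) (hL : 4 * τ ≤ z ^ t * k)
    (hn : 48 * k * τ / ((1 / 8) ^ t / 4) ≤ n) (hzL : z ^ t * k = L)
    (hm : (m : ℝ) = (1 / 8) ^ t / 4 * k * L) :
    ∃ (σ : Fin (n * t) → Option (Fin s × Fin (2 ^ w))) (D : Finset (Fin k × Fin k)),
      D.card = m ∧ (∀ i, (D.filter fun d => d.1 = i).card ≤ L) ∧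
      (∀ j, (D.filter fun d => d.2 = j).card ≤ L) ∧ AllRight query h (tab σ) D x y := by
  classical
  obtain ⟨D, V, hDG, h1, h2, h3, hV, ha⟩ := samples hk (good cell query h x y) hG
    (fun i d => ((query d).path (fam x) (fam y) (cell (fam x) (fam y)))[i]?.getD c0) z τ t n hz0 hz1
    hτ0 hzs hτ hL hn t le_rfl
  rw [hzL] at h1 h2 h3
  rw [← hm] at h3
  have h3' : m ≤ D.card := by exact_mod_cast h3
  obtain ⟨D', hD', hD'm⟩ := exists_subset_card_eq h3'
  obtain ⟨σ, hσ⟩ := exists_tab V hV (cell (fam x) (fam y))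
  refine ⟨σ, D', hD'm, fun i => ?_, fun j => ?_, fun d hd => ?_⟩
  · have h4 : (D.filter fun d => d.1 = i).card ≤ L := by exact_mod_cast h1 i
    exact (card_le_card (filter_subset_filter _ hD')).trans h4
  · have h4 : (D.filter fun d => d.2 = j).card ≤ L := by exact_mod_cast h2 j
    exact (card_le_card (filter_subset_filter _ hD')).trans h4
  · have h4 := hDG (hD' hd)
    unfold good at h4
    rw [mem_filter] at h4
    refine ⟨?_, h4.2.2⟩
    rw [← h4.2.1]
    refine Alg.run_eq _ _ _ _ _ fun c hc => hσ c ?_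
    obtain ⟨i, hi, hic⟩ := List.mem_iff_getElem.1 hc
    have h5 := ha d (hD' hd) i (lt_of_lt_of_le hi ((Alg.path_length _ _ _ _).trans (ht d)))
    simp only [List.getElem?_eq_getElem hi, Option.getD_some, hic] at h5
    exact h5

/-- The sets of queries. -/
theorem card_PP (m l : ℕ) (hkl : k ≤ 2 ^ l) (P : Finset (Fin k × Fin k) → Prop)
    [DecidablePred P] :
    (((powersetCard m (univ : Finset (Fin k × Fin k))).filter P).card : ℝ) ≤ 2 ^ (2 * l * m) := by
  have h1 : ((powersetCard m (univ : Finset (Fin k × Fin k))).filter P).card ≤ (k * k) ^ m := by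
    refine (card_filter_le _ _).trans ?_
    rw [card_powersetCard, card_univ, Fintype.card_prod, Fintype.card_fin]
    exact Nat.choose_le_pow _ _
  have h2 : (k * k) ^ m ≤ 2 ^ (2 * l * m) := by
    rw [pow_mul]
    refine Nat.pow_le_pow_left ?_ _
    calc k * k ≤ 2 ^ l * 2 ^ l := Nat.mul_le_mul hkl hkl
      _ = 2 ^ (2 * l) := by rw [← pow_add]; congr 1; ring
  exact_mod_cast h1.trans h2

/-- The probability that many queries are answered correctly is small. -/
theorem main_bound (t w b g l T h k s L q ρ n m M K : ℕ) (ht : 1 ≤ t) (hk : 1 ≤ k)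
    (hkl : k ≤ 2 ^ l) (hg : 64 * g ≤ T) (hLk : L ≤ k) (hs : s ^ t * L ≤ (4 * tauP t l) ^ t * k ^ (t + 1)) (hT : 32 * l + 128 ≤ T)
    (hρ : 2 * l + w + tauP t l + 2 ≤ T * ρ)
    (hL : L = 49152 * (8 ^ t * 8 ^ t) * t * tauP t l * ρ)
    (hq2 : 2 ≤ q) (hq : 64 * b ≤ T * q) (hK : K = 2 * (q * L)) (hM : M = K * T)
    (hn : n = 192 * 8 ^ t * k * tauP t l) (hm : m = 64 * ρ * (n * t))
    (hh : 2 * h ≤ M) (c0 : Fin s)
    (cell : (Fin k → Finset (Fin (M * K))) → (Fin k → Finset (Fin (M * K))) →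
      Fin s → Fin (2 ^ w))
    (query : Fin k × Fin k → (Fin g → Bool) → Alg (Fin k → Finset (Fin (M * K)))
      (Fin k → Finset (Fin (M * K))) (Finset (Fin (M * K))) s w)
    (hb : ∀ d v, (query d v).bits ≤ b) (hp : ∀ d v, (query d v).probes ≤ t)
    (gam : (Fin k × Fin M → Fin K) → (Fin k × Fin M → Fin K) → Fin k × Fin k → Fin g → Bool) :
    av (fun x : Fin k × Fin M → Fin K => av fun y : Fin k × Fin M → Fin K =>
      ind ((k : ℝ) ^ 2 / 4 ≤ (good cell (fun d => query d (gam x y d)) h x y).card)) ≤ 1 / 32 := by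
  classical
  obtain ⟨τ, hτ⟩ : ∃ τ, τ = tauP t l := ⟨_, rfl⟩
  rw [← hτ] at hs hρ hL hn
  obtain ⟨W, hW⟩ : ∃ W, W = 2 * l + w + τ + 2 := ⟨_, rfl⟩
  rw [← hW] at hρ
  have hτ4 : 4 ≤ τ := by rw [hτ]; unfold tauP; omega
  have h8 : 1 ≤ 8 ^ t := Nat.one_le_pow _ _ (by norm_num)
  have hρ1 : 1 ≤ ρ := by
    rcases Nat.eq_zero_or_pos ρ with h0 | h0
    · rw [h0, mul_zero] at hρ
      omega
    · exact h0
  have hLτ : 4 * τ ≤ L := by
    rw [hL]
    calc 4 * τ ≤ 49152 * 1 * 1 * τ * 1 := by omega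
      _ ≤ 49152 * (8 ^ t * 8 ^ t) * t * τ * ρ := by
          gcongr
          exact Nat.mul_pos h8 h8
  have hL1 : 1 ≤ L := by omega
  have hK1 : 0 < K := by
    rw [hK]
    have : 0 < q * L := Nat.mul_pos (by omega) (by omega)
    omega
  have : NeZero K := ⟨by omega⟩
  have hne : Nonempty (Fin K) := ⟨⟨0, hK1⟩⟩
  have hkR : (1 : ℝ) ≤ k := by exact_mod_cast hk
  have hk0 : (0 : ℝ) < k := by linarith
  have hK0 : (0 : ℝ) < K := by exact_mod_cast hK1
  obtain ⟨y, hy0, hy1, hyt, hys, hyk⟩ := exists_y ht hk hL1 hLk hs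
  have hcnd := hcond (t := t) hkl hk hyk
  rw [← hτ] at hcnd
  have hτR : (0 : ℝ) < (τ : ℝ) := by
    have : 0 < τ := by omega
    exact_mod_cast this
  have h18 : (1 / 8 : ℝ) ^ t * 8 ^ t = 1 := by
    rw [← mul_pow]
    norm_num
  have hnR : 48 * (k : ℝ) * τ / ((1 / 8) ^ t / 4) ≤ n := by
    rw [div_le_iff₀ (by positivity), hn]
    push_cast
    have : 192 * 8 ^ t * (k : ℝ) * τ * ((1 / 8) ^ t / 4) =
      48 * k * τ * ((1 / 8 : ℝ) ^ t * 8 ^ t) := by ring
    rw [this, h18, mul_one]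
  have hmR : (m : ℝ) = (1 / 8) ^ t / 4 * k * L := by
    rw [hm, hn, hL]
    push_cast
    have : (1 / 8 : ℝ) ^ t / 4 * k * (49152 * (8 ^ t * 8 ^ t) * t * τ * ρ) =
      64 * ρ * (192 * 8 ^ t * k * τ * t) * ((1 / 8 : ℝ) ^ t * 8 ^ t) := by ring
    rw [this, h18, mul_one]
  -- the queries
  obtain ⟨PP, hPP⟩ : ∃ PP : Finset (Finset (Fin k × Fin k)), PP =
    (powersetCard m (univ : Finset (Fin k × Fin k))).filter fun D =>
      (∀ i, (D.filter fun d => d.1 = i).card ≤ L) ∧
      (∀ j, (D.filter fun d => d.2 = j).card ≤ L) := ⟨_, rfl⟩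
  have hPPc : (PP.card : ℝ) ≤ 2 ^ (2 * l * m) := by
    rw [hPP]
    exact card_PP m l hkl _
  -- the guesses
  obtain ⟨Γ, hΓ⟩ : ∃ Γ : Finset (Fin k × Fin k) → Finset (Fin k × Fin k → Fin g → Bool),
    Γ = fun D => Fintype.piFinset fun d => if d ∈ D then univ else {fun _ => false} := ⟨_, rfl⟩
  have hΓc : ∀ D ∈ PP, ((Γ D).card : ℝ) = 2 ^ (g * m) := by
    intro D hD
    rw [hPP, mem_filter, mem_powersetCard] at hD
    have h1 : (Γ D).card = 2 ^ (g * m) := by
      rw [hΓ]
      simp only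
      rw [Fintype.card_piFinset]
      have h2 : ∀ d : Fin k × Fin k, (if d ∈ D then (univ : Finset (Fin g → Bool))
          else {fun _ => false}).card = if d ∈ D then 2 ^ g else 1 := by
        intro d
        split_ifs
        · simp
        · simp
      simp only [h2]
      rw [prod_ite_mem, univ_inter, prod_const, hD.1.2, pow_mul]
    exact_mod_cast h1
  -- the covering
  have hcov : ∀ x x' : Fin k × Fin M → Fin K,
      ind ((k : ℝ) ^ 2 / 4 ≤ (good cell (fun d => query d (gam x x' d)) h x x').card) ≤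
      ∑ σ : Fin (n * t) → Option (Fin s × Fin (2 ^ w)), ∑ D ∈ PP, ∑ v ∈ Γ D,
        ind (AllRight (fun d => query d (v d)) h (tab σ) D x x') := by
    intro x x'
    by_cases hG : (k : ℝ) ^ 2 / 4 ≤ (good cell (fun d => query d (gam x x' d)) h x x').card
    · obtain ⟨σ, D, h1, h2, h3, h4⟩ := cover cell (fun d => query d (gam x x' d)) h x x'
        (fun d => hp d _) c0 hk hG y τ hy0 hy1 hτR (by linarith) hcnd
        (by rw [hyt]; exact_mod_cast hLτ) hnR hyt hmR
      have hD : D ∈ PP := by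
        rw [hPP, mem_filter, mem_powersetCard]
        exact ⟨⟨subset_univ _, h1⟩, h2, h3⟩
      obtain ⟨v, hv⟩ : ∃ v : Fin k × Fin k → Fin g → Bool,
        v = fun d => if d ∈ D then gam x x' d else fun _ => false := ⟨_, rfl⟩
      have hvΓ : v ∈ Γ D := by
        rw [hΓ, hv]
        simp only [Fintype.mem_piFinset]
        intro d
        by_cases hd : d ∈ D
        · simp [hd]
        · simp [hd]
      have h5 : AllRight (fun d => query d (v d)) h (tab σ) D x x' := by
        intro d hd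
        have h6 := h4 d hd
        have h7 : v d = gam x x' d := by
          rw [hv]
          simp only [hd, if_true]
        simp only [h7]
        exact h6
      rw [ind_true hG, ← ind_true h5]
      refine le_trans (single_le_sum
        (f := fun v => ind (AllRight (fun d => query d (v d)) h (tab σ) D x x'))
        (fun v _ => ind_nonneg _) hvΓ) ?_
      refine le_trans (single_le_sum
        (f := fun D => ∑ v ∈ Γ D, ind (AllRight (fun d => query d (v d)) h (tab σ) D x x'))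
        (fun D _ => sum_nonneg fun v _ => ind_nonneg _) hD) ?_
      exact single_le_sum (f := fun σ : Fin (n * t) → Option (Fin s × Fin (2 ^ w)) =>
        ∑ D ∈ PP, ∑ v ∈ Γ D, ind (AllRight (fun d => query d (v d)) h (tab σ) D x x'))
        (fun σ _ => sum_nonneg fun D _ => sum_nonneg fun v _ => ind_nonneg _) (mem_univ σ)
    · rw [ind_false hG]
      exact sum_nonneg fun σ _ => sum_nonneg fun D _ => sum_nonneg fun v _ => ind_nonneg _
  -- one term
  have hq2R : (2 : ℝ) ≤ q := by exact_mod_cast hq2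
  have hq1' : (0 : ℝ) < (q : ℝ) - 1 := by linarith
  have hpq : (1 + 1 / ((q : ℝ) - 1)).HolderConjugate q := by
    rw [Real.holderConjugate_iff]
    have : 0 < 1 / ((q : ℝ) - 1) := by positivity
    refine ⟨by linarith, ?_⟩
    field_simp
    ring
  have hone : ∀ σ : Fin (n * t) → Option (Fin s × Fin (2 ^ w)), ∀ D ∈ PP,
      ∀ v : Fin k × Fin k → Fin g → Bool,
      av (fun x : Fin k × Fin M → Fin K => av fun y : Fin k × Fin M → Fin K =>
        ind (AllRight (fun d => query d (v d)) h (tab σ) D x y)) ≤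
          (2 : ℝ) ^ (-(7 / 64 * ((T : ℝ) * m))) := by
    intro σ D hD v
    rw [hPP, mem_filter, mem_powersetCard] at hD
    obtain ⟨⟨_, hDm⟩, hD1, hD2⟩ := hD
    have h1 := direct (query := fun d => query d (v d)) (fun d => hb d _) hh (by omega) hpq
      (by rw [hK]) (tab σ) hD1 hD2
    rw [hDm] at h1
    refine h1.trans ?_
    have h2 : (2 : ℝ) ^ (((b * m : ℕ) : ℝ) / q) ≤ 2 ^ ((T : ℝ) * m / 64) := by
      refine Real.rpow_le_rpow_of_exponent_le (by norm_num) ?_
      rw [div_le_iff₀ (by linarith), div_mul_eq_mul_div, le_div_iff₀ (by norm_num)]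
      have h3 : b * m * 64 ≤ T * m * q := by
        calc b * m * 64 = 64 * b * m := by ring
          _ ≤ T * q * m := Nat.mul_le_mul_right _ hq
          _ = T * m * q := by ring
      exact_mod_cast h3
    have h3 : Real.exp (-((m : ℝ) * M / (8 * K))) ≤ 2 ^ (-((T : ℝ) * m / 8)) := by
      have h4 : (m : ℝ) * M / (8 * K) = (T : ℝ) * m / 8 := by
        rw [hM]
        push_cast
        field_simp
      rw [h4]
      have h5 : (2 : ℝ) ≤ Real.exp 1 := by
        have := Real.add_one_le_exp (1 : ℝ)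
        linarith
      rw [Real.exp_neg, Real.rpow_neg (by norm_num)]
      apply inv_anti₀ (by positivity)
      calc (2 : ℝ) ^ ((T : ℝ) * m / 8) ≤ Real.exp 1 ^ ((T : ℝ) * m / 8) :=
            Real.rpow_le_rpow (by norm_num) h5 (by positivity)
        _ = Real.exp ((T : ℝ) * m / 8) := by rw [← Real.exp_mul, one_mul]
    calc _ ≤ (2 : ℝ) ^ ((T : ℝ) * m / 64) * 2 ^ (-((T : ℝ) * m / 8)) :=
          mul_le_mul h2 h3 (Real.exp_pos _).le (by positivity)
      _ = _ := by
          rw [← Real.rpow_add (by norm_num)]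
          congr 1
          ring
  -- summation
  have hfin : av (fun x : Fin k × Fin M → Fin K => av fun y : Fin k × Fin M → Fin K =>
      ind ((k : ℝ) ^ 2 / 4 ≤ (good cell (fun d => query d (gam x y d)) h x y).card)) ≤
      (Fintype.card (Fin (n * t) → Option (Fin s × Fin (2 ^ w))) : ℝ) *
        (PP.card * ((2 : ℝ) ^ (g * m) * (2 : ℝ) ^ (-(7 / 64 * ((T : ℝ) * m))))) := by
    refine (av_mono fun x => av_mono fun x' => hcov x x').trans ?_
    simp only [av_sum]
    calc _ ≤ ∑ _σ : Fin (n * t) → Option (Fin s × Fin (2 ^ w)), ∑ D ∈ PP, ∑ _v ∈ Γ D,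
          (2 : ℝ) ^ (-(7 / 64 * ((T : ℝ) * m))) :=
          sum_le_sum fun σ _ => sum_le_sum fun D hD => sum_le_sum fun v _ => hone σ D hD v
      _ = ∑ _σ : Fin (n * t) → Option (Fin s × Fin (2 ^ w)), ∑ _D ∈ PP,
          ((2 : ℝ) ^ (g * m) * (2 : ℝ) ^ (-(7 / 64 * ((T : ℝ) * m)))) := by
          refine sum_congr rfl fun σ _ => sum_congr rfl fun D hD => ?_
          rw [sum_const, nsmul_eq_mul, hΓc D hD]
      _ = _ := by
          rw [sum_const, sum_const, card_univ, nsmul_eq_mul, nsmul_eq_mul]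
  -- the number of tables
  have hadv : (Fintype.card (Fin (n * t) → Option (Fin s × Fin (2 ^ w))) : ℝ) ≤
      (2 : ℝ) ^ (W * (n * t)) := by
    have h1 : s * 2 ^ w + 1 ≤ 2 ^ W := by
      have h2 : (s : ℝ) ≤ 4 * τ * (k * k) := by
        have h3 : (s : ℝ) ≤ (y * k) * s := by
          have : (0 : ℝ) ≤ s := Nat.cast_nonneg _
          nlinarith
        have h4 : (y * s) * k ≤ 4 * (k * τ) * k := mul_le_mul_of_nonneg_right hys hk0.le
        linarith
      have h3 : s ≤ 4 * τ * (k * k) := by exact_mod_cast h2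
      have h4 : k * k ≤ 2 ^ l * 2 ^ l := Nat.mul_le_mul hkl hkl
      have h5 : 4 * τ ≤ 2 ^ (τ + 1) := by
        have := two_mul_le_two_pow (n := τ) (by omega)
        rw [pow_succ]
        omega
      have h6 : s * 2 ^ w ≤ 2 ^ (2 * l + w + τ + 1) := by
        calc s * 2 ^ w ≤ (2 ^ (τ + 1) * (2 ^ l * 2 ^ l)) * 2 ^ w :=
              Nat.mul_le_mul_right _ (h3.trans (Nat.mul_le_mul h5 h4))
          _ = 2 ^ (2 * l + w + τ + 1) := by
              rw [← pow_add, ← pow_add, ← pow_add]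
              congr 1
              ring
      have h7 : W = (2 * l + w + τ + 1) + 1 := by
        rw [hW]
      rw [h7, pow_succ]
      have h8 : 1 ≤ 2 ^ (2 * l + w + τ + 1) := Nat.one_le_two_pow
      omega
    have h2 : Fintype.card (Fin (n * t) → Option (Fin s × Fin (2 ^ w))) ≤ 2 ^ (W * (n * t)) := by
      rw [pow_mul, Fintype.card_fun, Fintype.card_option, Fintype.card_prod, Fintype.card_fin,
        Fintype.card_fin, Fintype.card_fin]
      exact Nat.pow_le_pow_left h1 _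
    exact_mod_cast h2
  have hm1 : (1 : ℝ) ≤ m := by
    have : 1 ≤ m := by
      rw [hm, hn]
      have h9 : 0 < 64 * ρ * (192 * 8 ^ t * k * τ * t) := by positivity
      exact h9
    exact_mod_cast this
  have hWm : ((W * (n * t) : ℕ) : ℝ) ≤ (T : ℝ) * m / 64 := by
    rw [le_div_iff₀ (by norm_num)]
    have h1 : W * (n * t) * 64 ≤ T * m := by
      calc W * (n * t) * 64 ≤ T * ρ * (n * t) * 64 :=
            Nat.mul_le_mul_right _ (Nat.mul_le_mul_right _ hρ)
        _ = T * m := by rw [hm]; ring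
    exact_mod_cast h1
  have hlm : ((2 * l * m : ℕ) : ℝ) ≤ ((T : ℝ) / 16 - 8) * m := by
    push_cast
    refine mul_le_mul_of_nonneg_right ?_ (by positivity)
    have h1 : (32 : ℝ) * l + 128 ≤ T := by exact_mod_cast hT
    linarith
  have hT0 : (0 : ℝ) ≤ (T : ℝ) * m := by positivity
  have hgm : ((g * m : ℕ) : ℝ) ≤ (T : ℝ) * m / 64 := by
    rw [le_div_iff₀ (by norm_num)]
    have h1 : g * m * 64 ≤ T * m := by
      calc g * m * 64 = 64 * g * m := by ring
        _ ≤ T * m := Nat.mul_le_mul_right _ hg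
    exact_mod_cast h1
  refine hfin.trans ?_
  calc _ ≤ (2 : ℝ) ^ (W * (n * t)) * (2 ^ (2 * l * m) * ((2 : ℝ) ^ (g * m) *
        (2 : ℝ) ^ (-(7 / 64 * ((T : ℝ) * m))))) := by
        gcongr
    _ = (2 : ℝ) ^ (((W * (n * t) : ℕ) : ℝ) + (((2 * l * m : ℕ) : ℝ) + (((g * m : ℕ) : ℝ) +
        -(7 / 64 * ((T : ℝ) * m))))) := by
        rw [← Real.rpow_natCast 2 (W * (n * t)), ← Real.rpow_natCast 2 (2 * l * m),
          ← Real.rpow_natCast 2 (g * m),
          ← Real.rpow_add (by norm_num), ← Real.rpow_add (by norm_num),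
          ← Real.rpow_add (by norm_num)]
    _ ≤ (2 : ℝ) ^ (-5 : ℝ) := by
        refine Real.rpow_le_rpow_of_exponent_le (by norm_num) ?_
        have h1 : ((T : ℝ) / 16 - 8) * m = (T : ℝ) * m / 16 - 8 * m := by ring
        rw [h1] at hlm
        linarith
    _ = 1 / 32 := by
        rw [Real.rpow_neg (by norm_num), show (5 : ℝ) = ((5 : ℕ) : ℝ) by norm_num,
          Real.rpow_natCast]
        norm_num

end Pool.Agent.V8H11.LI
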