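import Mathlib

set_option autoImplicit false

/-!
# Query algorithms with free bits of the two halves and few runs of consecutive joint bits
-/

namespace Pool.Agent.V8H11.LI

open Finset

/-- A query algorithm for an input with two halves from `A` and `B`. It can look at bits of the two
halves, which are arbitrary functions of a half, it can look at joint bits, which are arbitrary
functions of both halves, and it can read runs of `r` consecutive bits of a joint memory of `s`
bits. Everything which it does next depends on all what it has seen. -/
inductive RunAlg (A B R : Type) (s r : ℕ) : Type
  /-- the answer is `a` -/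
  | out (a : R) : RunAlg A B R s r
  /-- look at the bit `f` of the first half, and go on with `a` or `b` -/
  | left (f : A → Bool) (a b : RunAlg A B R s r) : RunAlg A B R s r
  /-- look at the bit `g` of the second half, and go on with `a` or `b` -/
  | right (g : B → Bool) (a b : RunAlg A B R s r) : RunAlg A B R s r
  /-- look at the bit `f` of both halves, and go on with `a` or `b` -/
  | joint (f : A → B → Bool) (a b : RunAlg A B R s r) : RunAlg A B R s r
  /-- read the bits `c, c + 1, …, c + r - 1` (modulo `s`) of the joint memory, and go on with
  `next v` if their values are `v` -/
  | read (c : Fin s) (next : (Fin r → Bool) → RunAlg A B R s r) : RunAlg A B R s r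

namespace RunAlg

variable {A B R : Type} {s r : ℕ}

/-- the largest number of bits of one of the two halves which are looked at -/
def bits : RunAlg A B R s r → ℕ
  | out _ => 0
  | left _ a b => max a.bits b.bits + 1
  | right _ a b => max a.bits b.bits + 1
  | joint _ a b => max a.bits b.bits
  | read _ next => univ.sup fun v => (next v).bits

/-- the largest number of single joint bits which are looked at -/
def joints : RunAlg A B R s r → ℕ
  | out _ => 0
  | left _ a b => max a.joints b.joints
  | right _ a b => max a.joints b.joints
  | joint _ a b => max a.joints b.joints + 1
  | read _ next => univ.sup fun v => (next v).joints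

/-- the largest number of runs which are read -/
def runs : RunAlg A B R s r → ℕ
  | out _ => 0
  | left _ a b => max a.runs b.runs
  | right _ a b => max a.runs b.runs
  | joint _ a b => max a.runs b.runs
  | read _ next => (univ.sup fun v => (next v).runs) + 1

/-- the answer on the input `(x, y)`, if the joint memory is `J` -/
def eval (x : A) (y : B) (J : Fin s → Bool) : RunAlg A B R s r → R
  | out a => a
  | left f a b => if f x then a.eval x y J else b.eval x y J
  | right g a b => if g y then a.eval x y J else b.eval x y J
  | joint f a b => if f x y then a.eval x y J else b.eval x y J
  | read c next => (next fun j => J ⟨(c + j) % s, Nat.mod_lt _ c.pos⟩).eval x y J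

end RunAlg

/-- A (deterministic) data structure for families of `2 * k` subsets of a universe with `u`
elements, which are given as two halves of `k` sets, with a joint memory of `s` bits. -/
structure RunDS (k u s r : ℕ) where
  /-- the joint memory, whose bits are arbitrary functions of the whole family -/
  mem : (Fin k → Finset (Fin u)) → (Fin k → Finset (Fin u)) → Fin s → Bool
  /-- the algorithm for the query `(i, j)`, which lists a set of elements -/
  query : Fin k → Fin k →
    RunAlg (Fin k → Finset (Fin u)) (Fin k → Finset (Fin u)) (Finset (Fin u)) s r

open Classical in
/-- The random data structure `D` (which is `D ω` with probability `p ω`) lists the intersections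
with at most `h` elements by means of at most `b` bits of one half, at most `g` single joint bits and
at most `t` runs of `r` bits of the joint memory: for every family with halves `F` and `G` of total
size at most `N` and every query `(i, j)` such that `F i ∩ G j` has at most `h` elements, the
probability that the answer is `F i ∩ G j` is at least `1 / 2`. -/
def SolvesRuns {k u s r : ℕ} (b g t h N : ℕ) {Ω : Type} [Fintype Ω] (p : Ω → ℝ)
    (D : Ω → RunDS k u s r) : Prop :=
  (∀ ω, 0 ≤ p ω) ∧ ∑ ω, p ω = 1 ∧
    (∀ ω i j, ((D ω).query i j).bits ≤ b ∧ ((D ω).query i j).joints ≤ g ∧
      ((D ω).query i j).runs ≤ t) ∧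
    ∀ F G : Fin k → Finset (Fin u), ∑ i, (F i).card + ∑ j, (G j).card ≤ N → ∀ i j : Fin k,
      (F i ∩ G j).card ≤ h →
      1 / 2 ≤ ∑ ω ∈ univ.filter (fun ω =>
        ((D ω).query i j).eval F G ((D ω).mem F G) = F i ∩ G j), p ω

end Pool.Agent.V8H11.LI
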