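import Pool.Agent.V8H11.LI.Fin
import Pool.Agent.V8H11.LI.Runs

set_option autoImplicit false

/-!
# Listing with few runs of joint bits: the main theorem
-/

namespace Pool.Agent.V8H11.LI

open Finset
open Pool.Agent.V8H11.JP (tauP)

/-- The numerical conclusion. -/
theorem numer {t r b l T k s N : ℕ} (ht : 1 ≤ t) (hT : 32 * l + 128 ≤ T) (hs : 1 ≤ s)
    (hN : N < (k + 1) * (2 * MP t (2 * r) b l T))
    (h : ¬ (1 ≤ k ∧ LP t (2 * r) l T ≤ k ∧
      s ^ t * LP t (2 * r) l T ≤ (4 * tauP t l) ^ t * k ^ (t + 1))) :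
    N ^ (t + 1) ≤ (10 ^ (6 * t + 15) * (b + T) * (r / T + 1) ^ 2 * (l + 1) ^ 2) ^ (t + 1) *
      s ^ t := by
  obtain ⟨C, hC⟩ : ∃ C, C = 10 ^ (6 * t + 15) * (b + T) * (r / T + 1) ^ 2 * (l + 1) ^ 2 :=
    ⟨_, rfl⟩
  have h1 := ML_bound (r := r) (b := b) ht hT
  rw [← hC] at h1 ⊢
  obtain ⟨M, hM⟩ : ∃ M, M = MP t (2 * r) b l T := ⟨_, rfl⟩
  obtain ⟨L, hL⟩ : ∃ L, L = LP t (2 * r) l T := ⟨_, rfl⟩
  rw [← hM] at h1 hN
  rw [← hL] at h1 h
  have hst : 1 ≤ s ^ t := Nat.one_le_pow _ _ hs
  have hL1 : 1 ≤ L := by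
    have h0 : 0 < L := by
      rw [hL]
      unfold LP tauP rP
      positivity
    exact h0
  have hMC : 4 * M ≤ C := (Nat.le_mul_of_pos_right _ hL1).trans h1
  rcases Nat.eq_zero_or_pos k with h0 | h0
  · subst h0
    calc N ^ (t + 1) ≤ C ^ (t + 1) := Nat.pow_le_pow_left (by omega) _
      _ ≤ C ^ (t + 1) * s ^ t := Nat.le_mul_of_pos_right _ hst
  have hNk : N ≤ k * (4 * M) := by
    have h3 : (k + 1) * (2 * M) ≤ (2 * k) * (2 * M) := Nat.mul_le_mul_right _ (by omega)
    have h4 : (2 * k) * (2 * M) = k * (4 * M) := by ring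
    omega
  by_cases hLk : L ≤ k
  · have h3 : (4 * tauP t l) ^ t * k ^ (t + 1) < s ^ t * L := by
      by_contra hcon
      push Not at hcon
      exact h ⟨h0, hLk, hcon⟩
    have h4 : k ^ (t + 1) ≤ s ^ t * L := by
      refine le_trans (Nat.le_mul_of_pos_left _ ?_) h3.le
      have : 0 < 4 * tauP t l := by unfold tauP; omega
      positivity
    calc N ^ (t + 1) ≤ (k * (4 * M)) ^ (t + 1) := Nat.pow_le_pow_left hNk _
      _ = k ^ (t + 1) * (4 * M) ^ (t + 1) := mul_pow _ _ _
      _ ≤ (s ^ t * L) * (4 * M) ^ (t + 1) := Nat.mul_le_mul_right _ h4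
      _ = L * (4 * M) ^ (t + 1) * s ^ t := by ring
      _ ≤ L ^ (t + 1) * (4 * M) ^ (t + 1) * s ^ t := by
          refine Nat.mul_le_mul_right _ (Nat.mul_le_mul_right _ ?_)
          calc L = L ^ 1 := (pow_one L).symm
            _ ≤ L ^ (t + 1) := Nat.pow_le_pow_right hL1 (by omega)
      _ = (4 * M * L) ^ (t + 1) * s ^ t := by rw [mul_pow (4 * M) L]; ring
      _ ≤ C ^ (t + 1) * s ^ t := Nat.mul_le_mul_right _ (Nat.pow_le_pow_left h1 _)
  · have h3 : N ≤ C := by
      refine hNk.trans (le_trans ?_ h1)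
      rw [mul_comm]
      exact Nat.mul_le_mul_left _ (by omega)
    calc N ^ (t + 1) ≤ C ^ (t + 1) := Nat.pow_le_pow_left h3 _
      _ ≤ C ^ (t + 1) * s ^ t := Nat.le_mul_of_pos_right _ hst

/-! ### Runs and cells -/

/-- the contents of a cell as bits -/
noncomputable def code (r : ℕ) : (Fin (2 * r) → Bool) ≃ Fin (2 ^ (2 * r)) :=
  Fintype.equivFinOfCardEq (by simp)

/-- the cells -/
noncomputable def bigMem {s r : ℕ} (J : Fin s → Bool) (g : Fin (s / r + 1)) :
    Fin (2 ^ (2 * r)) :=
  code r fun j => if h : (g * r + j) % s < s then J ⟨(g * r + j) % s, h⟩ else false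

theorem ofFn_pad (L : List Bool) {g : ℕ} (h : L.length ≤ g) :
    List.ofFn (fun i : Fin g => L.getD i false) = L ++ List.replicate (g - L.length) false := by
  refine List.ext_getElem (by simp; omega) fun i h1 h2 => ?_
  rw [List.getElem_ofFn]
  by_cases hi : i < L.length
  · rw [List.getElem_append_left hi]
    simp [hi]
  · rw [List.getElem_append_right (by omega), List.getElem_replicate]
    simp [hi]

namespace RunAlg

variable {A B R : Type} {s r : ℕ}

/-- the values of the single joint bits -/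
def guess (x : A) (y : B) (J : Fin s → Bool) : RunAlg A B R s r → List Bool
  | out _ => []
  | left f a b => if f x then a.guess x y J else b.guess x y J
  | right g a b => if g y then a.guess x y J else b.guess x y J
  | joint f a b => f x y :: (if f x y then a.guess x y J else b.guess x y J)
  | read c next => (next fun j => J ⟨(c + j) % s, Nat.mod_lt _ c.pos⟩).guess x y J

/-- the algorithm with cells, if the values of the single joint bits are `L` -/
noncomputable def toAlg : RunAlg A B R s r → List Bool → Alg A B R (s / r + 1) (2 * r)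
  | out a, _ => Alg.out a
  | left f a b, L => Alg.left f (a.toAlg L) (b.toAlg L)
  | right g a b, L => Alg.right g (a.toAlg L) (b.toAlg L)
  | joint _ a b, L => if L.headD false then a.toAlg L.tail else b.toAlg L.tail
  | read c next, L =>
      Alg.probe ⟨c / r, Nat.lt_succ_of_le (Nat.div_le_div_right c.2.le)⟩ fun v =>
        (next fun j => (code r).symm v ⟨c % r + j, by
          have h1 := Nat.mod_lt c.1 j.pos
          have h2 := j.2
          omega⟩).toAlg L

theorem guess_length (x : A) (y : B) (J : Fin s → Bool) (π : RunAlg A B R s r) :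
    (π.guess x y J).length ≤ π.joints := by
  induction π with
  | out a => exact le_rfl
  | left f a b iha ihb =>
    unfold guess joints
    split_ifs <;> omega
  | right f a b iha ihb =>
    unfold guess joints
    split_ifs <;> omega
  | joint f a b iha ihb =>
    unfold guess joints
    rw [List.length_cons]
    split_ifs <;> omega
  | read c next ih =>
    unfold guess joints
    exact (ih _).trans (le_sup (f := fun v => (next v).joints) (mem_univ _))

theorem toAlg_bits (π : RunAlg A B R s r) (L : List Bool) : (π.toAlg L).bits ≤ π.bits := by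
  induction π generalizing L with
  | out a => exact le_rfl
  | left f a b iha ihb =>
    show max (a.toAlg L).bits (b.toAlg L).bits + 1 ≤ max a.bits b.bits + 1
    have h1 := iha L
    have h2 := ihb L
    omega
  | right f a b iha ihb =>
    show max (a.toAlg L).bits (b.toAlg L).bits + 1 ≤ max a.bits b.bits + 1
    have h1 := iha L
    have h2 := ihb L
    omega
  | joint f a b iha ihb =>
    show (if L.headD false then a.toAlg L.tail else b.toAlg L.tail).bits ≤ max a.bits b.bits
    have h1 := iha L.tail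
    have h2 := ihb L.tail
    split_ifs <;> omega
  | read c next ih =>
    refine Finset.sup_le fun v _ => (ih _ _).trans ?_
    exact le_sup (f := fun v => (next v).bits) (mem_univ _)

theorem toAlg_probes (π : RunAlg A B R s r) (L : List Bool) :
    (π.toAlg L).probes ≤ π.runs := by
  induction π generalizing L with
  | out a => exact le_rfl
  | left f a b iha ihb =>
    show max (a.toAlg L).probes (b.toAlg L).probes ≤ max a.runs b.runs
    have h1 := iha L
    have h2 := ihb L
    omega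
  | right f a b iha ihb =>
    show max (a.toAlg L).probes (b.toAlg L).probes ≤ max a.runs b.runs
    have h1 := iha L
    have h2 := ihb L
    omega
  | joint f a b iha ihb =>
    show (if L.headD false then a.toAlg L.tail else b.toAlg L.tail).probes ≤ max a.runs b.runs
    have h1 := iha L.tail
    have h2 := ihb L.tail
    split_ifs <;> omega
  | read c next ih =>
    refine Nat.succ_le_succ (Finset.sup_le fun v _ => (ih _ _).trans ?_)
    exact le_sup (f := fun v => (next v).runs) (mem_univ _)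

theorem toAlg_eval (π : RunAlg A B R s r) (x : A) (y : B) (J : Fin s → Bool) (L : List Bool) :
    (π.toAlg (π.guess x y J ++ L)).eval x y (bigMem J) = π.eval x y J := by
  induction π with
  | out a => rfl
  | left f a b iha ihb =>
    unfold guess toAlg eval Alg.eval
    split_ifs with h
    · exact iha
    · exact ihb
  | right f a b iha ihb =>
    unfold guess toAlg eval Alg.eval
    split_ifs with h
    · exact iha
    · exact ihb
  | joint f a b iha ihb =>
    unfold guess toAlg eval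
    rw [List.cons_append, List.headD_cons, List.tail_cons]
    split_ifs with h
    · exact iha
    · exact ihb
  | read c next ih =>
    have h0 : (fun j : Fin r => (code r).symm (bigMem J
        ⟨c / r, Nat.lt_succ_of_le (Nat.div_le_div_right c.2.le)⟩) ⟨c % r + j, by
          have h1 := Nat.mod_lt c.1 j.pos
          have h2 := j.2
          omega⟩) = fun j : Fin r => J ⟨(c + j) % s, Nat.mod_lt _ c.pos⟩ := by
      funext j
      unfold bigMem
      rw [Equiv.symm_apply_apply]
      have h1 : (c : ℕ) / r * r + ((c : ℕ) % r + (j : ℕ)) = c + j := by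
        rw [← Nat.add_assoc, Nat.div_add_mod']
      have h2 : ((c : ℕ) + j) % s < s := Nat.mod_lt _ c.pos
      simp only [h1, h2, dif_pos]
    show ((next fun j : Fin r => (code r).symm (bigMem J
        ⟨c / r, Nat.lt_succ_of_le (Nat.div_le_div_right c.2.le)⟩) ⟨c % r + j, by
          have h1 := Nat.mod_lt c.1 j.pos
          have h2 := j.2
          omega⟩).toAlg ((next fun j => J ⟨(c + j) % s, Nat.mod_lt _ c.pos⟩).guess x y J ++
            L)).eval x y (bigMem J) = (next fun j => J ⟨(c + j) % s, Nat.mod_lt _ c.pos⟩).eval x y J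
    rw [h0]
    exact ih _

end RunAlg

/-- **Main theorem.** -/
theorem joint_runs (t T r b g N l : ℕ) (ht : 1 ≤ t) (hT : 32 * l + 128 ≤ T) (hg : 64 * g ≤ T)
    (hl : N ≤ 2 ^ l) :
    ∃ k u : ℕ, u ≤ (10 ^ (6 * t + 15) * (b + T) * (r / T + 1) ^ 2 * (l + 1) ^ 2) ^ 2 ∧
      ∀ (s : ℕ), 1 ≤ s → ∀ (Ω : Type) [Fintype Ω] (p : Ω → ℝ) (D : Ω → RunDS k u s r),
        SolvesRuns b g t (4 * T) N p D →
        N ^ (t + 1) * r ^ t ≤
          (10 ^ (6 * t + 15) * (b + T) * (r / T + 1) ^ 2 * (l + 1) ^ 2) ^ (t + 1) *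
            (s + r) ^ t := by
  have hL1 : 1 ≤ LP t (2 * r) l T := by
    have h0 : 0 < LP t (2 * r) l T := by
      unfold LP tauP rP
      positivity
    exact h0
  have hK1 : 1 ≤ KP t (2 * r) b l T := by
    unfold KP
    have : 0 < qP b T * LP t (2 * r) l T := Nat.mul_pos (by unfold qP; exact Nat.succ_pos _) hL1
    omega
  have hM1 : 1 ≤ MP t (2 * r) b l T := by
    unfold MP
    exact Nat.mul_pos hK1 (by omega)
  have hb1 := ML_bound (r := r) (b := b) ht hT
  obtain ⟨k, hk0⟩ : ∃ k, k = N / (2 * MP t (2 * r) b l T) := ⟨_, rfl⟩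
  have hkM : k * (2 * MP t (2 * r) b l T) ≤ N := by
    rw [hk0]
    exact Nat.div_mul_le_self _ _
  have hk2 : N < (k + 1) * (2 * MP t (2 * r) b l T) := by
    have h1 : N < 2 * MP t (2 * r) b l T * (N / (2 * MP t (2 * r) b l T) + 1) :=
      Nat.lt_mul_div_succ N (by omega)
    rw [hk0, mul_comm (N / (2 * MP t (2 * r) b l T) + 1)]
    exact h1
  have hkN : k ≤ N := (Nat.le_mul_of_pos_right _ (by omega)).trans hkM
  refine ⟨k, MP t (2 * r) b l T * KP t (2 * r) b l T, ?_, ?_⟩
  · have h2 : MP t (2 * r) b l T ≤ 4 * MP t (2 * r) b l T * LP t (2 * r) l T := by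
      calc MP t (2 * r) b l T = 1 * MP t (2 * r) b l T * 1 := by ring
        _ ≤ 4 * MP t (2 * r) b l T * LP t (2 * r) l T := by gcongr; norm_num
    have h3 : KP t (2 * r) b l T ≤ MP t (2 * r) b l T := by
      unfold MP
      exact Nat.le_mul_of_pos_right _ (by omega)
    rw [pow_two]
    exact Nat.mul_le_mul (h2.trans hb1) (h3.trans (h2.trans hb1))
  intro s hs Ω _ p D hD
  have hkey := numer (r := r) (b := b) (s := s / r + 1) ht hT (Nat.le_add_left _ _) hk2 (by
    rintro ⟨h0, h1, h2⟩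
    obtain ⟨hp, hp1, hd, hgood⟩ := hD
    have hT0 : 0 < T := by omega
    refine no_small t (2 * r) b g l T (4 * T) k (s / r + 1) (LP t (2 * r) l T) (qP b T)
      (rP t (2 * r) l T) (192 * 8 ^ t * k * tauP t l)
      (64 * rP t (2 * r) l T * (192 * 8 ^ t * k * tauP t l * t)) (MP t (2 * r) b l T)
      (KP t (2 * r) b l T) N ht h0 (hkN.trans hl) hg h1 (Nat.le_add_left _ _) h2 hT ?_ rfl ?_ ?_
      rfl rfl rfl rfl rfl hkM p hp hp1 (fun ω F G => bigMem ((D ω).mem F G))
      (fun ω d v => ((D ω).query d.1 d.2).toAlg (List.ofFn v))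
      (fun ω d v => ⟨(RunAlg.toAlg_bits _ _).trans (hd ω d.1 d.2).1,
        (RunAlg.toAlg_probes _ _).trans (hd ω d.1 d.2).2.2⟩)
      (fun ω F G d i => (((D ω).query d.1 d.2).guess F G ((D ω).mem F G)).getD i false) ?_
    · unfold rP
      exact (Nat.lt_mul_div_succ _ hT0).le
    · unfold qP
      exact Nat.le_add_left _ _
    · unfold qP
      have h3 : 64 * b < T * (64 * b / T + 1) := Nat.lt_mul_div_succ _ hT0
      have h4 : T * (64 * b / T + 1) ≤ T * (64 * b / T + 2) := Nat.mul_le_mul_left _ (by omega)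
      omega
    · intro F G hFG d hij
      refine (hgood F G hFG d.1 d.2 hij).trans (le_of_eq ?_)
      rw [sum_filter]
      refine sum_congr rfl fun ω _ => ?_
      have h3 := RunAlg.guess_length F G ((D ω).mem F G) ((D ω).query d.1 d.2)
      rw [ofFn_pad _ (h3.trans (hd ω d.1 d.2).2.1), RunAlg.toAlg_eval])
  calc N ^ (t + 1) * r ^ t ≤
      (10 ^ (6 * t + 15) * (b + T) * (r / T + 1) ^ 2 * (l + 1) ^ 2) ^ (t + 1) *
        (s / r + 1) ^ t * r ^ t := Nat.mul_le_mul_right _ hkey
    _ = (10 ^ (6 * t + 15) * (b + T) * (r / T + 1) ^ 2 * (l + 1) ^ 2) ^ (t + 1) *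
        ((s / r + 1) * r) ^ t := by rw [mul_assoc, ← mul_pow]
    _ ≤ _ := by
        refine Nat.mul_le_mul_left _ (Nat.pow_le_pow_left ?_ _)
        have h1 : s / r * r ≤ s := Nat.div_mul_le_self _ _
        have h2 : (s / r + 1) * r = s / r * r + r := by ring
        omega

/-- One run. -/
theorem one_run (T c g N l : ℕ) (hT : 32 * l + 128 ≤ T) (hg : 64 * g ≤ T) (hc : 1 ≤ c)
    (hl : N ≤ 2 ^ l) :
    ∃ k u : ℕ, u ≤ (10 ^ 22 * c ^ 3 * T * (l + 1) ^ 2) ^ 2 ∧
      ∀ (s : ℕ), 1 ≤ s → ∀ (Ω : Type) [Fintype Ω] (p : Ω → ℝ) (D : Ω → RunDS k u s (c * T)),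
        SolvesRuns (c * T) g 1 (4 * T) N p D →
        N ^ 2 ≤ 10 ^ 44 * c ^ 5 * (l + 1) ^ 4 * T * (s + c * T) := by
  have hT0 : 0 < T := by omega
  have hcT : 0 < c * T := Nat.mul_pos hc hT0
  obtain ⟨k, u, hu, h⟩ := joint_runs 1 T (c * T) (c * T) g N l le_rfl hT hg hl
  have h1 : c * T / T = c := Nat.mul_div_cancel _ hT0
  have h2 : c + 1 ≤ 2 * c := by omega
  have h3 : 10 ^ (6 * 1 + 15) * (c * T + T) * (c * T / T + 1) ^ 2 * (l + 1) ^ 2 ≤
      8 * 10 ^ 21 * c ^ 3 * T * (l + 1) ^ 2 := by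
    rw [h1]
    calc 10 ^ (6 * 1 + 15) * (c * T + T) * (c + 1) ^ 2 * (l + 1) ^ 2
        = 10 ^ 21 * (c + 1) ^ 3 * T * (l + 1) ^ 2 := by ring
      _ ≤ 10 ^ 21 * (2 * c) ^ 3 * T * (l + 1) ^ 2 := by gcongr
      _ = 8 * 10 ^ 21 * c ^ 3 * T * (l + 1) ^ 2 := by ring
  refine ⟨k, u, hu.trans (Nat.pow_le_pow_left (h3.trans ?_) 2), ?_⟩
  · gcongr
    norm_num
  · intro s hs Ω _ p D hD
    have h4 := h s hs Ω p D hD
    refine Nat.le_of_mul_le_mul_right ?_ hcT
    calc N ^ 2 * (c * T) = N ^ (1 + 1) * (c * T) ^ 1 := by rw [pow_one]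
      _ ≤ _ := h4
      _ ≤ (8 * 10 ^ 21 * c ^ 3 * T * (l + 1) ^ 2) ^ (1 + 1) * (s + c * T) ^ 1 :=
          Nat.mul_le_mul_right _ (Nat.pow_le_pow_left h3 _)
      _ = 64 * 10 ^ 42 * c ^ 5 * (l + 1) ^ 4 * T * (s + c * T) * (c * T) := by ring
      _ ≤ 10 ^ 44 * c ^ 5 * (l + 1) ^ 4 * T * (s + c * T) * (c * T) := by
          gcongr
          norm_num

end Pool.Agent.V8H11.LI
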