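import Pool.Agent.V8H11.LI.Ker
import Pool.Agent.V8H11.LI.Defs

set_option autoImplicit false

/-!
# Query algorithms and bilinear bounds
-/

namespace Pool.Agent.V8H11.LI

open Finset
open Pool.Agent.Y516.OJ (ind)
open Pool.Agent.Y85.OJ (ind_true ind_false ind_nonneg)

namespace Alg

variable {A B R : Type} {s w : ℕ}

/-- the answer, if only the contents in the table `T` are known -/
def run (x : A) (y : B) (T : Fin s → Option (Fin (2 ^ w))) : Alg A B R s w → Option R
  | out r => some r
  | left f a b => if f x then a.run x y T else b.run x y T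
  | right g a b => if g y then a.run x y T else b.run x y T
  | probe c next => (T c).elim none fun v => (next v).run x y T

/-- the cells which are probed -/
def path (x : A) (y : B) (J : Fin s → Fin (2 ^ w)) : Alg A B R s w → List (Fin s)
  | out _ => []
  | left f a b => if f x then a.path x y J else b.path x y J
  | right g a b => if g y then a.path x y J else b.path x y J
  | probe c next => c :: (next (J c)).path x y J

theorem run_left (x : A) (y : B) (T : Fin s → Option (Fin (2 ^ w))) (f : A → Bool)
    (a b : Alg A B R s w) :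
    (left f a b).run x y T = if f x then a.run x y T else b.run x y T := rfl

theorem run_right (x : A) (y : B) (T : Fin s → Option (Fin (2 ^ w))) (f : B → Bool)
    (a b : Alg A B R s w) :
    (right f a b).run x y T = if f y then a.run x y T else b.run x y T := rfl

theorem run_probe (x : A) (y : B) (T : Fin s → Option (Fin (2 ^ w))) (c : Fin s)
    (next : Fin (2 ^ w) → Alg A B R s w) :
    (probe c next).run x y T = (T c).elim none fun v => (next v).run x y T := rfl

theorem path_length (x : A) (y : B) (J : Fin s → Fin (2 ^ w)) (π : Alg A B R s w) :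
    (π.path x y J).length ≤ π.probes := by
  induction π with
  | out r => simp [path]
  | left f a b iha ihb =>
    unfold path probes
    split_ifs
    · exact iha.trans (le_max_left _ _)
    · exact ihb.trans (le_max_right _ _)
  | right f a b iha ihb =>
    unfold path probes
    split_ifs
    · exact iha.trans (le_max_left _ _)
    · exact ihb.trans (le_max_right _ _)
  | probe c next ih =>
    unfold path probes
    rw [List.length_cons]
    exact Nat.succ_le_succ ((ih (J c)).trans
      (le_sup (f := fun v => (next v).probes) (mem_univ (J c))))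

theorem run_eq (x : A) (y : B) (J : Fin s → Fin (2 ^ w)) (T : Fin s → Option (Fin (2 ^ w)))
    (π : Alg A B R s w) (h : ∀ c ∈ π.path x y J, T c = some (J c)) :
    π.run x y T = some (π.eval x y J) := by
  induction π with
  | out r => rfl
  | left f a b iha ihb =>
    unfold path at h
    unfold run eval
    split_ifs at h ⊢ with hf
    · exact iha h
    · exact ihb h
  | right f a b iha ihb =>
    unfold path at h
    unfold run eval
    split_ifs at h ⊢ with hf
    · exact iha h
    · exact ihb h
  | probe c next ih =>
    unfold path at h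
    unfold run eval
    rw [h c List.mem_cons_self]
    exact ih (J c) fun c' hc' => h c' (List.mem_cons_of_mem _ hc')

end Alg

section bound

variable {A B R : Type} [Fintype A] [Fintype B] {s w : ℕ}

/-- a bilinear bound for an event -/
def Bdd (p c : ℝ) (Ψ : A → B → Prop) : Prop :=
  ∀ (f : A → ℝ) (g : B → ℝ), (∀ a, 0 ≤ f a) → (∀ b, 0 ≤ g b) →
    av (fun x => av fun y => f x * g y * ind (Ψ x y)) ≤ c * (nrm p f * nrm p g)

theorem Bdd.mono {p c c' : ℝ} {Ψ : A → B → Prop} (h : Bdd p c Ψ) (hc : c ≤ c') : Bdd p c' Ψ :=
  fun f g hf hg => (h f g hf hg).trans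
    (mul_le_mul_of_nonneg_right hc (mul_nonneg (nrm_nonneg p hf) (nrm_nonneg p hg)))

theorem nrm_split {p q : ℝ} (hpq : p.HolderConjugate q) {f : A → ℝ} (hf : ∀ a, 0 ≤ f a)
    (P : A → Bool) :
    nrm p (fun a => f a * ind (P a = true)) + nrm p (fun a => f a * ind (¬ P a = true)) ≤
      2 ^ (1 / q) * nrm p f := by
  have hp := hpq.pos
  have h1 : ∀ Q : A → Prop, 0 ≤ av (fun a => (f a * ind (Q a)) ^ p) := fun Q =>
    av_nonneg fun a => Real.rpow_nonneg (mul_nonneg (hf a) (ind_nonneg _)) _
  have h2 := Pool.Agent.V8H11.JP.holder (A := Bool) (w := fun _ => 1)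
    (f := fun c => if c then nrm p (fun a => f a * ind (P a = true)) else
      nrm p (fun a => f a * ind (¬ P a = true))) (g := fun _ => 1) (fun _ => zero_le_one)
    (fun c => by
      cases c
      · simpa using nrm_nonneg p fun a => mul_nonneg (hf a) (ind_nonneg _)
      · simpa using nrm_nonneg p fun a => mul_nonneg (hf a) (ind_nonneg _))
    (fun _ => zero_le_one) hpq
  have h3 : ∀ Q : A → Prop, nrm p (fun a => f a * ind (Q a)) ^ p =
      av fun a => (f a * ind (Q a)) ^ p := by
    intro Q
    unfold nrm
    rw [← Real.rpow_mul (h1 Q), one_div_mul_cancel hp.ne', Real.rpow_one]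
  simp only [Fintype.sum_bool, one_mul, mul_one, if_true, Real.one_rpow, Bool.false_eq_true,
    if_false] at h2
  rw [h3, h3, ← av_add] at h2
  have h4 : (av fun a => (f a * ind (P a = true)) ^ p + (f a * ind (¬ P a = true)) ^ p) =
      av fun a => f a ^ p := by
    congr 1
    funext a
    by_cases h : P a = true
    · rw [ind_true h, ind_false (show ¬ ¬ P a = true from fun h' => h' h), mul_one, mul_zero,
        Real.zero_rpow hp.ne', add_zero]
    · rw [ind_false h, ind_true (show ¬ P a = true from h), mul_one, mul_zero,
        Real.zero_rpow hp.ne', zero_add]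
  rw [h4] at h2
  have h5 : (1 + 1 : ℝ) = 2 := by norm_num
  rw [h5] at h2
  calc _ ≤ _ := h2
    _ = _ := by
      unfold nrm
      ring

theorem two_rpow_max {q : ℝ} (hq : 0 < q) {m n : ℕ} :
    (2 : ℝ) ^ ((m : ℝ) / q) ≤ 2 ^ (((max m n : ℕ) : ℝ) / q) ∧
    (2 : ℝ) ^ ((n : ℝ) / q) ≤ 2 ^ (((max m n : ℕ) : ℝ) / q) := by
  refine ⟨?_, ?_⟩
  · refine Real.rpow_le_rpow_of_exponent_le (by norm_num)
      (div_le_div_of_nonneg_right ?_ hq.le)
    exact_mod_cast le_max_left m n
  · refine Real.rpow_le_rpow_of_exponent_le (by norm_num)
      (div_le_div_of_nonneg_right ?_ hq.le)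
    exact_mod_cast le_max_right m n

theorem split_left (f : A → ℝ) (g : B → ℝ) (P : A → Bool) (Ψ Φ : A → B → Prop) :
    av (fun x => av fun y => f x * g y * ind (if P x then Ψ x y else Φ x y)) =
    av (fun x => av fun y => (f x * ind (P x = true)) * g y * ind (Ψ x y)) +
    av (fun x => av fun y => (f x * ind (¬ P x = true)) * g y * ind (Φ x y)) := by
  rw [← av_add]
  congr 1
  funext x
  rw [← av_add]
  congr 1
  funext y
  by_cases h : P x = true
  · rw [ind_true h, ind_false (show ¬ ¬ P x = true from fun h' => h' h), if_pos h]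
    ring
  · rw [ind_false h, ind_true (show ¬ P x = true from h), if_neg h]
    ring

theorem split_right (f : A → ℝ) (g : B → ℝ) (P : B → Bool) (Ψ Φ : A → B → Prop) :
    av (fun x => av fun y => f x * g y * ind (if P y then Ψ x y else Φ x y)) =
    av (fun x => av fun y => f x * (g y * ind (P y = true)) * ind (Ψ x y)) +
    av (fun x => av fun y => f x * (g y * ind (¬ P y = true)) * ind (Φ x y)) := by
  rw [← av_add]
  congr 1
  funext x
  rw [← av_add]
  congr 1
  funext y
  by_cases h : P y = true
  · rw [ind_true h, ind_false (show ¬ ¬ P y = true from fun h' => h' h), if_pos h]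
    ring
  · rw [ind_false h, ind_true (show ¬ P y = true from h), if_neg h]
    ring

/-- one algorithm -/
theorem tree_bdd {p q c : ℝ} (hpq : p.HolderConjugate q) (hc : 0 ≤ c)
    (T : Fin s → Option (Fin (2 ^ w))) (π : Alg A B R s w) (Ψ : Option R → A → B → Prop)
    (hΨ : ∀ r, Bdd p c (Ψ r)) :
    Bdd p (2 ^ ((π.bits : ℝ) / q) * c) fun x y => Ψ (π.run x y T) x y := by
  have hq : 0 < q := hpq.symm.pos
  have hstep : ∀ n : ℕ, (2 : ℝ) ^ (((n + 1 : ℕ) : ℝ) / q) = 2 ^ (1 / q) * 2 ^ ((n : ℝ) / q) := by
    intro n
    rw [← Real.rpow_add (by norm_num)]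
    congr 1
    push_cast
    ring
  induction π with
  | out r =>
    refine (hΨ (some r)).mono ?_
    unfold Alg.bits
    simp
  | left P a b iha ihb =>
    intro f g hf hg
    have h1 : ∀ x y, Ψ ((Alg.left P a b).run x y T) x y ↔
        (if P x then Ψ (a.run x y T) x y else Ψ (b.run x y T) x y) := by
      intro x y
      rw [Alg.run_left]
      split_ifs <;> rfl
    simp only [ind_congr (h1 _ _)]
    rw [split_left f g P]
    have h2 := iha (fun x => f x * ind (P x = true)) g
      (fun x => mul_nonneg (hf x) (ind_nonneg _)) hg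
    have h3 := ihb (fun x => f x * ind (¬ P x = true)) g
      (fun x => mul_nonneg (hf x) (ind_nonneg _)) hg
    obtain ⟨h4, h5⟩ := two_rpow_max hq (m := a.bits) (n := b.bits)
    have h6 := nrm_split hpq hf P
    obtain ⟨M, hM⟩ : ∃ M : ℝ, M = 2 ^ (((max a.bits b.bits : ℕ) : ℝ) / q) := ⟨_, rfl⟩
    rw [← hM] at h4 h5
    have hg0 := nrm_nonneg p hg
    have ha0 := nrm_nonneg p (f := fun x => f x * ind (P x = true))
      fun x => mul_nonneg (hf x) (ind_nonneg _)
    have hb0 := nrm_nonneg p (f := fun x => f x * ind (¬ P x = true))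
      fun x => mul_nonneg (hf x) (ind_nonneg _)
    have hM0 : 0 ≤ M := by rw [hM]; positivity
    unfold Alg.bits
    rw [hstep, ← hM]
    calc _ ≤ 2 ^ ((a.bits : ℝ) / q) * c * (nrm p (fun x => f x * ind (P x = true)) * nrm p g) +
          2 ^ ((b.bits : ℝ) / q) * c * (nrm p (fun x => f x * ind (¬ P x = true)) * nrm p g) :=
          add_le_add h2 h3
      _ ≤ M * c * (nrm p (fun x => f x * ind (P x = true)) * nrm p g) +
          M * c * (nrm p (fun x => f x * ind (¬ P x = true)) * nrm p g) := by
          refine add_le_add ?_ ?_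
          · exact mul_le_mul_of_nonneg_right (mul_le_mul_of_nonneg_right h4 hc) (by positivity)
          · exact mul_le_mul_of_nonneg_right (mul_le_mul_of_nonneg_right h5 hc) (by positivity)
      _ = M * c * nrm p g * (nrm p (fun x => f x * ind (P x = true)) +
          nrm p (fun x => f x * ind (¬ P x = true))) := by ring
      _ ≤ M * c * nrm p g * (2 ^ (1 / q) * nrm p f) :=
          mul_le_mul_of_nonneg_left h6 (by positivity)
      _ = _ := by ring
  | right P a b iha ihb =>
    intro f g hf hg
    have h1 : ∀ x y, Ψ ((Alg.right P a b).run x y T) x y ↔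
        (if P y then Ψ (a.run x y T) x y else Ψ (b.run x y T) x y) := by
      intro x y
      rw [Alg.run_right]
      split_ifs <;> rfl
    simp only [ind_congr (h1 _ _)]
    rw [split_right f g P]
    have h2 := iha f (fun x => g x * ind (P x = true)) hf
      (fun x => mul_nonneg (hg x) (ind_nonneg _))
    have h3 := ihb f (fun x => g x * ind (¬ P x = true)) hf
      (fun x => mul_nonneg (hg x) (ind_nonneg _))
    obtain ⟨h4, h5⟩ := two_rpow_max hq (m := a.bits) (n := b.bits)
    have h6 := nrm_split hpq hg P
    obtain ⟨M, hM⟩ : ∃ M : ℝ, M = 2 ^ (((max a.bits b.bits : ℕ) : ℝ) / q) := ⟨_, rfl⟩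
    rw [← hM] at h4 h5
    have hf0 := nrm_nonneg p hf
    have ha0 := nrm_nonneg p (f := fun x => g x * ind (P x = true))
      fun x => mul_nonneg (hg x) (ind_nonneg _)
    have hb0 := nrm_nonneg p (f := fun x => g x * ind (¬ P x = true))
      fun x => mul_nonneg (hg x) (ind_nonneg _)
    have hM0 : 0 ≤ M := by rw [hM]; positivity
    unfold Alg.bits
    rw [hstep, ← hM]
    calc _ ≤ 2 ^ ((a.bits : ℝ) / q) * c * (nrm p f * nrm p (fun x => g x * ind (P x = true))) +
          2 ^ ((b.bits : ℝ) / q) * c * (nrm p f * nrm p (fun x => g x * ind (¬ P x = true))) :=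
          add_le_add h2 h3
      _ ≤ M * c * (nrm p f * nrm p (fun x => g x * ind (P x = true))) +
          M * c * (nrm p f * nrm p (fun x => g x * ind (¬ P x = true))) := by
          refine add_le_add ?_ ?_
          · exact mul_le_mul_of_nonneg_right (mul_le_mul_of_nonneg_right h4 hc) (by positivity)
          · exact mul_le_mul_of_nonneg_right (mul_le_mul_of_nonneg_right h5 hc) (by positivity)
      _ = M * c * nrm p f * (nrm p (fun x => g x * ind (P x = true)) +
          nrm p (fun x => g x * ind (¬ P x = true))) := by ring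
      _ ≤ M * c * nrm p f * (2 ^ (1 / q) * nrm p g) :=
          mul_le_mul_of_nonneg_left h6 (by positivity)
      _ = _ := by ring
  | probe cc next ih =>
    have hone : (1 : ℝ) ≤ 2 ^ (((Alg.probe cc next).bits : ℝ) / q) :=
      Real.one_le_rpow (by norm_num) (by positivity)
    cases hT : T cc with
    | none =>
      have h1 : ∀ x y, Ψ ((Alg.probe cc next).run x y T) x y ↔ Ψ none x y := by
        intro x y
        rw [Alg.run_probe, hT]
        rfl
      intro f g hf hg
      simp only [ind_congr (h1 _ _)]
      exact ((hΨ none).mono (by nlinarith)) f g hf hg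
    | some v =>
      have h1 : ∀ x y, Ψ ((Alg.probe cc next).run x y T) x y ↔ Ψ ((next v).run x y T) x y := by
        intro x y
        rw [Alg.run_probe, hT]
        rfl
      intro f g hf hg
      simp only [ind_congr (h1 _ _)]
      refine ((ih v).mono ?_) f g hf hg
      refine mul_le_mul_of_nonneg_right ?_ hc
      refine Real.rpow_le_rpow_of_exponent_le (by norm_num) (div_le_div_of_nonneg_right ?_ hq.le)
      have h2 : (next v).bits ≤ (Alg.probe cc next).bits :=
        le_sup (f := fun v => (next v).bits) (mem_univ v)
      exact_mod_cast h2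

/-- several algorithms -/
theorem trees_bdd {δ : Type} [DecidableEq δ] {p q c : ℝ} (hpq : p.HolderConjugate q)
    (hc : 0 ≤ c) {b : ℕ} (T : Fin s → Option (Fin (2 ^ w))) (π : δ → Alg A B R s w)
    (hb : ∀ d, (π d).bits ≤ b) (C : δ → Option R → A → B → Prop) (D : Finset δ)
    (hC : ∀ S : δ → Option R, Bdd p c fun x y => ∀ d ∈ D, C d (S d) x y) :
    Bdd p (2 ^ (((b * D.card : ℕ) : ℝ) / q) * c) fun x y => ∀ d ∈ D, C d ((π d).run x y T) x y := by
  have hq : 0 < q := hpq.symm.pos
  have key : ∀ D1 : Finset δ, ∀ S : δ → Option R,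
      Bdd p (2 ^ (((b * D1.card : ℕ) : ℝ) / q) * c) fun x y =>
        ∀ d ∈ D, C d (if d ∈ D1 then (π d).run x y T else S d) x y := by
    intro D1
    induction D1 using Finset.induction_on with
    | empty =>
      intro S
      refine Bdd.mono (c := c) ?_ ?_
      · simpa using hC S
      · simp
    | insert d0 D1 hd0 ih =>
      intro S
      have h1 := tree_bdd hpq (c := 2 ^ (((b * D1.card : ℕ) : ℝ) / q) * c) (by positivity) T (π d0)
        (fun r x y => ∀ d ∈ D, C d (if d ∈ D1 then (π d).run x y T else
          Function.update S d0 r d) x y) (fun r => ih (Function.update S d0 r))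
      have h2 : (fun x y => ∀ d ∈ D, C d (if d ∈ D1 then (π d).run x y T else
          Function.update S d0 ((π d0).run x y T) d) x y) = fun x y =>
        ∀ d ∈ D, C d (if d ∈ insert d0 D1 then (π d).run x y T else S d) x y := by
        funext x y
        refine propext (forall_congr' fun d => forall_congr' fun _ => ?_)
        have h3 : (if d ∈ D1 then (π d).run x y T else
            Function.update S d0 ((π d0).run x y T) d) =
            (if d ∈ insert d0 D1 then (π d).run x y T else S d) := by
          by_cases h4 : d ∈ D1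
          · rw [if_pos h4, if_pos (mem_insert_of_mem h4)]
          · rw [if_neg h4]
            by_cases h5 : d = d0
            · subst h5
              rw [Function.update_self, if_pos (mem_insert_self _ _)]
            · rw [Function.update_of_ne h5, if_neg]
              rw [mem_insert]
              tauto
        rw [h3]
      rw [← h2]
      refine h1.mono ?_
      rw [← mul_assoc, ← Real.rpow_add (by norm_num)]
      refine mul_le_mul_of_nonneg_right ?_ hc
      refine Real.rpow_le_rpow_of_exponent_le (by norm_num) ?_
      rw [← add_div]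
      refine div_le_div_of_nonneg_right ?_ hq.le
      rw [card_insert_of_notMem hd0]
      have h6 := hb d0
      have h7 : (π d0).bits + b * D1.card ≤ b * (D1.card + 1) := by
        rw [Nat.mul_add, mul_one]
        omega
      exact_mod_cast h7
  have h1 := key D fun _ => none
  have h2 : (fun x y => ∀ d ∈ D, C d (if d ∈ D then (π d).run x y T else none) x y) =
      fun x y => ∀ d ∈ D, C d ((π d).run x y T) x y := by
    funext x y
    refine propext (forall_congr' fun d => forall_congr' fun hd => ?_)
    rw [if_pos hd]
  rw [h2] at h1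
  exact h1

end bound

end Pool.Agent.V8H11.LI
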